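import Mathlib

open MeasureTheory Set Filter Topology

namespace Pool.Agent.H.MP_bac04d_nt

/-- Polynomial growth in a strip by Phragmén-Lindelöf. -/
theorem poly_growth {F : ℂ → ℂ} (hF : Differentiable ℂ F) {K : ℝ} (hK : 0 < K) (n : ℕ)
    {C1 C2 A B0 T : ℝ}
    (h1 : ∀ s : ℂ, s.re = -K → ‖F s‖ ≤ C1 * (1 + |s.im|) ^ n)
    (h2 : ∀ s : ℂ, s.re = K + 1 → ‖F s‖ ≤ C2)
    (h3 : ∀ s : ℂ, -K ≤ s.re → s.re ≤ K + 1 → T ≤ |s.im| → ‖F s‖ ≤ A * Real.exp (B0 * |s.im|)) :
    ∃ C : ℝ, 0 ≤ C ∧ ∀ s : ℂ, -K ≤ s.re → s.re ≤ K + 1 → ‖F s‖ ≤ C * (1 + |s.im|) ^ n := by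
  set p : ℂ := ((K + 1 : ℝ) : ℂ) with hp
  set g : ℂ → ℂ := fun s => F s / (s + p) ^ n with hg
  have hre : ∀ s : ℂ, -K ≤ s.re → 1 ≤ (s + p).re := by
    intro s hs; simp [hp]; linarith
  have hone : ∀ s : ℂ, -K ≤ s.re → 1 ≤ ‖s + p‖ := fun s hs =>
    (hre s hs).trans ((le_abs_self _).trans (Complex.abs_re_le_norm _))
  have him : ∀ s : ℂ, |s.im| ≤ ‖s + p‖ := by
    intro s
    have : (s + p).im = s.im := by simp [hp]
    rw [← this]; exact Complex.abs_im_le_norm _
  have hne : ∀ s : ℂ, -K ≤ s.re → s + p ≠ 0 := by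
    intro s hs h
    have := hone s hs
    rw [h, norm_zero] at this
    linarith
  have hgF : ∀ s : ℂ, -K ≤ s.re → ‖g s‖ ≤ ‖F s‖ := by
    intro s hs
    rw [hg]
    simp only [norm_div, norm_pow]
    exact div_le_self (norm_nonneg _) (one_le_pow₀ (hone s hs))
  set CC : ℝ := max (2 ^ n * |C1|) C2 with hCC
  have hCC0 : 0 ≤ CC := le_max_of_le_left (by positivity)
  have hab : -K < K + 1 := by linarith
  have key : ∀ s : ℂ, -K ≤ s.re → s.re ≤ K + 1 → ‖g s‖ ≤ CC := by
    intro s hs1 hs2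
    refine PhragmenLindelof.vertical_strip (a := -K) (b := K + 1) (f := g) ?_ ?_ ?_ ?_ hs1 hs2
    · apply DifferentiableOn.diffContOnCl
      intro z hz
      have hz' : z ∈ Complex.re ⁻¹' Icc (-K) (K + 1) := by
        refine closure_minimal (preimage_mono Ioo_subset_Icc_self)
          (isClosed_Icc.preimage Complex.continuous_re) hz
      apply DifferentiableAt.differentiableWithinAt
      have hz2 : (z + p) ^ n ≠ 0 := pow_ne_zero _ (hne z hz'.1)
      exact (hF z).div (by fun_prop) hz2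
    · refine ⟨Real.pi / (K + 1 - -K) / 2, ?_, |B0| / (Real.pi / (K + 1 - -K) / 2), ?_⟩
      · have : 0 < Real.pi / (K + 1 - -K) := div_pos Real.pi_pos (by linarith)
        linarith
      · set c : ℝ := Real.pi / (K + 1 - -K) / 2 with hc
        have hc0 : 0 < c := by
          have : 0 < Real.pi / (K + 1 - -K) := div_pos Real.pi_pos (by linarith)
          rw [hc]; linarith
        apply Asymptotics.IsBigO.of_bound |A|
        rw [eventually_inf_principal]
        have hev : ∀ᶠ z : ℂ in comap (abs ∘ Complex.im) atTop, T ≤ |z.im| :=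
          tendsto_comap.eventually (eventually_ge_atTop T)
        filter_upwards [hev] with z hz hz'
        have h4 := h3 z hz'.1.le hz'.2.le hz
        rw [Real.norm_of_nonneg (Real.exp_pos _).le]
        refine (hgF z hz'.1.le).trans (h4.trans ?_)
        have h5 : Real.exp (B0 * |z.im|) ≤ Real.exp (|B0| / c * Real.exp (c * |z.im|)) := by
          apply Real.exp_le_exp.2
          have h6 : c * |z.im| ≤ Real.exp (c * |z.im|) := by
            linarith [Real.add_one_le_exp (c * |z.im|)]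
          have h7 : |B0| / c * (c * |z.im|) ≤ |B0| / c * Real.exp (c * |z.im|) := by gcongr
          have h8 : |B0| / c * (c * |z.im|) = |B0| * |z.im| := by field_simp
          have h9 : B0 * |z.im| ≤ |B0| * |z.im| := by
            gcongr; exact le_abs_self _
          linarith
        calc A * Real.exp (B0 * |z.im|) ≤ |A| * Real.exp (B0 * |z.im|) := by
              gcongr; exact le_abs_self _
          _ ≤ _ := by gcongr
    · intro z hz
      have h4 := h1 z hz
      have h5 := hone z hz.ge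
      have h6 := him z
      rw [hg]
      simp only [norm_div, norm_pow]
      rw [div_le_iff₀ (by positivity)]
      have h7 : (1 + |z.im|) ^ n ≤ (2 * ‖z + p‖) ^ n := by
        apply pow_le_pow_left₀ (by positivity); linarith
      calc ‖F z‖ ≤ C1 * (1 + |z.im|) ^ n := h4
        _ ≤ |C1| * (1 + |z.im|) ^ n := by gcongr; exact le_abs_self _
        _ ≤ |C1| * (2 * ‖z + p‖) ^ n := by gcongr
        _ = (2 ^ n * |C1|) * ‖z + p‖ ^ n := by rw [mul_pow]; ring
        _ ≤ CC * ‖z + p‖ ^ n := by gcongr; exact le_max_left _ _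
    · intro z hz
      exact (hgF z (by linarith)).trans ((h2 z hz).trans (le_max_right _ _))
  refine ⟨CC * (2 * K + 2) ^ n, by positivity, fun s hs1 hs2 => ?_⟩
  have h4 := key s hs1 hs2
  have hpos : 0 < ‖s + p‖ := by linarith [hone s hs1]
  rw [hg] at h4
  simp only [norm_div, norm_pow] at h4
  rw [div_le_iff₀ (by positivity)] at h4
  refine h4.trans ?_
  have h5 : ‖s + p‖ ≤ (2 * K + 2) * (1 + |s.im|) := by
    refine (Complex.norm_le_abs_re_add_abs_im _).trans ?_
    have e1 : (s + p).re = s.re + (K + 1) := by simp [hp]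
    have e2 : (s + p).im = s.im := by simp [hp]
    rw [e1, e2, abs_of_nonneg (by linarith)]
    have : 0 ≤ |s.im| := abs_nonneg _
    nlinarith
  calc CC * ‖s + p‖ ^ n ≤ CC * ((2 * K + 2) * (1 + |s.im|)) ^ n := by gcongr
    _ = _ := by rw [mul_pow]; ring

end Pool.Agent.H.MP_bac04d_nt
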