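import Pool.Agent.H.MP_bac04d_nt.Pair
import Pool.Agent.H.MP_bac04d_nt.Growth

open MeasureTheory Set Filter Topology

namespace Pool.Agent.H.MP_bac04d_nt

namespace ThetaData

variable {ν : ℝ} (D : ThetaData ν)

/-- The constant `Q = 6^ν`. -/
noncomputable def Q (ν : ℝ) : ℝ := (6 : ℝ) ^ ν

lemma Q_pos (ν : ℝ) : 0 < Q ν := Real.rpow_pos_of_pos (by norm_num) ν

lemma Q_ne (ν : ℝ) : (Q ν : ℂ) ≠ 0 := by exact_mod_cast (Q_pos ν).ne'

lemma node_cpow (hν : 0 < ν) {n : ℕ} (hn : 0 < n) (s : ℂ) :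
    ((node ν n : ℝ) : ℂ) ^ ((ν : ℂ) * s) = (n : ℂ) ^ s * (Q ν : ℂ) ^ (-s) := by
  have hn' : (0 : ℝ) < n := by exact_mod_cast hn
  have h1 : ((node ν n : ℝ) : ℂ) ≠ 0 := by exact_mod_cast (node_pos ν hn).ne'
  have h2 : (n : ℂ) ≠ 0 := by exact_mod_cast hn.ne'
  have hν' : (ν : ℂ) ≠ 0 := by exact_mod_cast hν.ne'
  rw [Complex.cpow_def_of_ne_zero h1, Complex.cpow_def_of_ne_zero h2,
    Complex.cpow_def_of_ne_zero (Q_ne ν), ← Complex.exp_add, ← Complex.ofReal_log (node_nonneg ν n),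
    ← Complex.ofReal_log (Q_pos ν).le, ← Complex.natCast_log]
  have h3 : Real.log (node ν n) = 1 / ν * Real.log n - Real.log 6 := by
    unfold node
    rw [Real.log_div (Real.rpow_pos_of_pos hn' _).ne' (by norm_num), Real.log_rpow hn']
  have h4 : Real.log (Q ν) = ν * Real.log 6 := by
    unfold Q; rw [Real.log_rpow (by norm_num)]
  rw [h3, h4]
  congr 1
  push_cast
  field_simp
  ring

/-- The function. -/
noncomputable def F (hν : 0 < ν) (s : ℂ) : ℂ :=
  D.Lam hν (ν * s) * (Complex.Gamma (ν * s))⁻¹ * (Q ν : ℂ) ^ (-s)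

lemma differentiable_F (hν : 0 < ν) : Differentiable ℂ (D.F hν) := by
  unfold F
  have h1 : Differentiable ℂ fun s : ℂ => (ν : ℂ) * s := by fun_prop
  have h2 : Differentiable ℂ fun s : ℂ => (Complex.Gamma (ν * s))⁻¹ :=
    Complex.differentiable_one_div_Gamma.comp h1
  have h3 : Differentiable ℂ fun s : ℂ => D.Lam hν (ν * s) := (D.differentiable_Lam hν).comp h1
  have h4 : Differentiable ℂ fun s : ℂ => (Q ν : ℂ) ^ (-s) := by
    intro s
    exact (differentiableAt_id.neg).const_cpow (Or.inl (Q_ne ν))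
  exact (h3.mul h2).mul h4

lemma summable_coeff {s : ℂ} (hs : 1 < s.re) :
    LSeriesSummable (fun n => ((D.e n : ℝ) : ℂ)) s := by
  unfold LSeriesSummable
  apply Summable.of_norm
  refine (D.summ s.re hs).congr fun n => ?_
  rcases Nat.eq_zero_or_pos n with rfl | hn
  · simp [D.e0]
  · rw [LSeries.term_of_ne_zero hn.ne', norm_div, Complex.norm_real, Real.norm_eq_abs,
      Complex.norm_natCast_cpow_of_pos hn, Real.rpow_neg (Nat.cast_nonneg n)]
    rfl

lemma hasSum_Lam (hν : 0 < ν) {s : ℂ} (hs : 1 < s.re) :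
    D.Lam hν (ν * s) = Complex.Gamma (ν * s) * (Q ν : ℂ) ^ s *
      LSeries (fun n => ((D.e n : ℝ) : ℂ)) s := by
  have hre : ((ν : ℂ) * s).re = ν * s.re := by simp
  have h1 : HasSum (fun i : ℕ => Complex.Gamma (ν * s) * ((D.e i : ℝ) : ℂ) /
      ((node ν i : ℝ) : ℂ) ^ ((ν : ℂ) * s)) (mellin (fun t => ((D.th t : ℝ) : ℂ)) (ν * s)) := by
    apply hasSum_mellin
    · intro i
      rcases Nat.eq_zero_or_pos i with rfl | hi
      · left; simp [D.e0]
      · right; exact node_pos ν hi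
    · rw [hre]; apply mul_pos hν; linarith
    · intro t ht
      have h2 := (D.hs t ht)
      have h3 : HasSum (fun n => ((D.e n * Real.exp (-(t * node ν n)) : ℝ) : ℂ))
        ((D.th t : ℝ) : ℂ) := by exact_mod_cast h2
      refine h3.congr_fun fun n => ?_
      push_cast
      congr 2
      ring
    · rw [hre]
      refine ((D.summ s.re hs).mul_left ((Q ν) ^ s.re)).congr fun n => ?_
      rcases Nat.eq_zero_or_pos n with rfl | hn
      · simp [D.e0]
      · have hn' : (0 : ℝ) < n := by exact_mod_cast hn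
        rw [Complex.norm_real, Real.norm_eq_abs, Real.rpow_mul (node_nonneg ν n), node_rpow hν,
          Real.mul_rpow hn'.le (by positivity), Real.rpow_neg hn'.le]
        have h5 : ((6 : ℝ) ^ (-ν)) ^ s.re = ((Q ν) ^ s.re)⁻¹ := by
          unfold Q
          rw [Real.rpow_neg (by norm_num), Real.inv_rpow (by positivity)]
        rw [h5]
        have h6 : (Q ν) ^ s.re ≠ 0 := (Real.rpow_pos_of_pos (Q_pos ν) _).ne'
        have h7 : (n : ℝ) ^ s.re ≠ 0 := (Real.rpow_pos_of_pos hn' _).ne'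
        field_simp
  rw [← D.Lam_eq hν] at h1
  rw [← h1.tsum_eq, LSeries, ← tsum_mul_left]
  congr 1
  ext n
  rcases Nat.eq_zero_or_pos n with rfl | hn
  · simp [D.e0]
  · rw [LSeries.term_of_ne_zero hn.ne', node_cpow hν hn]
    have h8 : (n : ℂ) ^ s ≠ 0 := by
      rw [Complex.cpow_ne_zero_iff]; left; exact_mod_cast hn.ne'
    have h9 : (Q ν : ℂ) ^ s ≠ 0 := by
      rw [Complex.cpow_ne_zero_iff]; left; exact Q_ne ν
    rw [Complex.cpow_neg]
    field_simp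

lemma F_eq_LSeries (hν : 0 < ν) {s : ℂ} (hs : 1 < s.re) :
    D.F hν s = LSeries (fun n => ((D.e n : ℝ) : ℂ)) s := by
  unfold F
  rw [D.hasSum_Lam hν hs]
  have h1 : Complex.Gamma (ν * s) ≠ 0 := by
    apply Complex.Gamma_ne_zero_of_re_pos
    simp only [Complex.mul_re, Complex.ofReal_re, Complex.ofReal_im, zero_mul, sub_zero]
    apply mul_pos hν; linarith
  have h9 : (Q ν : ℂ) ^ s ≠ 0 := by
    rw [Complex.cpow_ne_zero_iff]; left; exact Q_ne ν
  rw [Complex.cpow_neg]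
  field_simp

lemma F_norm_le (hν : 0 < ν) {b : ℝ} (hb : 1 < b) : ∃ C : ℝ, 0 ≤ C ∧ ∀ s : ℂ, s.re = b →
    ‖D.F hν s‖ ≤ C := by
  refine ⟨∑' n : ℕ, |D.e n| * (n : ℝ) ^ (-b), tsum_nonneg fun n => by positivity, fun s hs => ?_⟩
  rw [D.F_eq_LSeries hν (by rw [hs]; exact hb), LSeries]
  have h1 : ∀ n : ℕ, ‖LSeries.term (fun n => ((D.e n : ℝ) : ℂ)) s n‖ = |D.e n| * (n : ℝ) ^ (-b) := by
    intro n
    rcases Nat.eq_zero_or_pos n with rfl | hn
    · simp [D.e0]
    · rw [LSeries.term_of_ne_zero hn.ne', norm_div, Complex.norm_real, Real.norm_eq_abs,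
        Complex.norm_natCast_cpow_of_pos hn, Real.rpow_neg (Nat.cast_nonneg n), hs]
      rfl
  refine (norm_tsum_le_tsum_norm ?_).trans (le_of_eq ?_)
  · exact (D.summ b hb).congr fun n => (h1 n).symm
  · congr 1; ext n; exact h1 n

/-- Growth of `F` in strips. -/
lemma F_growth (hν : 0 < ν) {K : ℝ} (hK : 0 < K) :
    ∃ n : ℕ, ∃ C : ℝ, 0 ≤ C ∧ ∀ s : ℂ, -K ≤ s.re → s.re ≤ K + 1 →
      ‖D.F hν s‖ ≤ C * (1 + |s.im|) ^ n := by
  obtain ⟨C2, hC2, h2⟩ := D.F_norm_le hν (b := K + 1) (by linarith)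
  obtain ⟨C3, hC3, n, h3⟩ := exists_ratio_bound (ν := ν) (x := -(ν * K))
    (by nlinarith [mul_pos hν hK]) (by nlinarith [mul_pos hν hK])
  obtain ⟨C4, hC4, h4⟩ := D.Lam_strip_bound hν (ν * (-K)) (ν * (K + 1))
  obtain ⟨C5, hC5, h5⟩ := exists_inv_Gamma_bound (ν * (-K)) (ν * (K + 1))
  refine ⟨n, poly_growth (D.differentiable_F hν) hK n (C1 := C3 * (max 1 ν) ^ n * C2 *
    (Q ν) ^ (2 * K + 1)) (C2 := C2) (A := C4 * C5 * (max ((Q ν) ^ K) ((Q ν) ^ (-(K + 1)))))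
    (B0 := Real.pi * ν) (T := 1 / ν) ?_ h2 ?_⟩
  · intro s hs
    have e1 : D.F hν s = (Complex.Gamma (ν - ν * s) * (Complex.Gamma (ν * s))⁻¹) *
        ((Q ν : ℂ) ^ (1 - s) * (Q ν : ℂ) ^ (-s)) * D.F hν (1 - s) := by
      have hs' : 1 < (1 - s).re := by simp [hs]; linarith
      rw [D.F_eq_LSeries hν hs']
      unfold F
      rw [← D.Lam_feq hν (ν * s), show (ν - ν * s : ℂ) = ν * (1 - s) by ring,
        D.hasSum_Lam hν hs']
      ring
    have hre : ((ν : ℂ) * s).re = -(ν * K) := by simp [hs]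
    have him : ((ν : ℂ) * s).im = ν * s.im := by simp
    have h6 := h3 (ν * s) hre
    rw [him, abs_mul, abs_of_pos hν] at h6
    have h7 := h2 (1 - s) (by simp [hs]; ring)
    have h8 : ‖(Q ν : ℂ) ^ (1 - s) * (Q ν : ℂ) ^ (-s)‖ = (Q ν) ^ (2 * K + 1) := by
      rw [norm_mul, Complex.norm_cpow_eq_rpow_re_of_pos (Q_pos ν),
        Complex.norm_cpow_eq_rpow_re_of_pos (Q_pos ν), ← Real.rpow_add (Q_pos ν)]
      congr 1
      simp [hs]; ring
    have h9 : (1 + ν * |s.im|) ^ n ≤ (max 1 ν) ^ n * (1 + |s.im|) ^ n := by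
      rw [← mul_pow]
      apply pow_le_pow_left₀ (by positivity)
      have h10 : 1 ≤ max 1 ν := le_max_left _ _
      have h11 : ν ≤ max 1 ν := le_max_right _ _
      have h12 : 0 ≤ |s.im| := abs_nonneg _
      nlinarith
    rw [e1, norm_mul, norm_mul, h8]
    have hQ := Real.rpow_nonneg (Q_pos ν).le (2 * K + 1)
    calc _ ≤ (C3 * (1 + ν * |s.im|) ^ n) * (Q ν) ^ (2 * K + 1) * C2 := by gcongr
      _ ≤ (C3 * ((max 1 ν) ^ n * (1 + |s.im|) ^ n)) * (Q ν) ^ (2 * K + 1) * C2 := by gcongr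
      _ = _ := by ring
  · intro s hs1 hs2 hT
    have hre : ((ν : ℂ) * s).re = ν * s.re := by simp
    have him : ((ν : ℂ) * s).im = ν * s.im := by simp
    have hlo : ν * (-K) ≤ ν * s.re := mul_le_mul_of_nonneg_left hs1 hν.le
    have hhi : ν * s.re ≤ ν * (K + 1) := mul_le_mul_of_nonneg_left hs2 hν.le
    have h6 := h4 (ν * s) (by rw [hre]; exact hlo) (by rw [hre]; exact hhi)
    have h7 := h5 (ν * s) (by rw [hre]; exact hlo) (by rw [hre]; exact hhi) (by
      rw [him, abs_mul, abs_of_pos hν]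
      calc 1 = ν * (1 / ν) := by field_simp
        _ ≤ _ := by gcongr)
    rw [him, abs_mul, abs_of_pos hν] at h7
    have h8 : ‖(Q ν : ℂ) ^ (-s)‖ ≤ max ((Q ν) ^ K) ((Q ν) ^ (-(K + 1))) := by
      rw [Complex.norm_cpow_eq_rpow_re_of_pos (Q_pos ν)]
      rcases le_total 1 (Q ν) with h | h
      · exact le_max_of_le_left (Real.rpow_le_rpow_of_exponent_le h (by simp; linarith))
      · exact le_max_of_le_right
          (Real.rpow_le_rpow_of_exponent_ge (Q_pos ν) h (by simp; linarith))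
    have hM : 0 ≤ max ((Q ν) ^ K) ((Q ν) ^ (-(K + 1))) :=
      le_max_of_le_left (Real.rpow_nonneg (Q_pos ν).le _)
    unfold F
    rw [norm_mul, norm_mul]
    calc _ ≤ C4 * (C5 * Real.exp (Real.pi * (ν * |s.im|))) *
          max ((Q ν) ^ K) ((Q ν) ^ (-(K + 1))) := by gcongr
      _ = _ := by rw [← mul_assoc Real.pi]; ring

/-- The completed function. -/
lemma completed_eq (hν : 0 < ν) {s : ℂ} (hs : Complex.Gamma (ν * s) ≠ 0) :
    (Q ν : ℂ) ^ s * Complex.Gamma (ν * s) * D.F hν s = D.Lam hν (ν * s) := by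
  unfold F
  have h9 : (Q ν : ℂ) ^ s ≠ 0 := by
    rw [Complex.cpow_ne_zero_iff]; left; exact Q_ne ν
  rw [Complex.cpow_neg]
  field_simp

/-- The functional equation. -/
lemma functional_equation (hν : 0 < ν) {s : ℂ} (hs : Complex.Gamma (ν * s) ≠ 0)
    (hs' : Complex.Gamma (ν * (1 - s)) ≠ 0) :
    (Q ν : ℂ) ^ s * Complex.Gamma (ν * s) * D.F hν s =
      (starRingEnd ℂ) ((Q ν : ℂ) ^ (1 - (starRingEnd ℂ) s) *
        Complex.Gamma (ν * (1 - (starRingEnd ℂ) s)) * D.F hν (1 - (starRingEnd ℂ) s)) := by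
  have h1 : (1 - (starRingEnd ℂ) s) = (starRingEnd ℂ) (1 - s) := by simp
  have h2 : (ν : ℂ) * (starRingEnd ℂ) (1 - s) = (starRingEnd ℂ) (ν * (1 - s)) := by simp
  rw [D.completed_eq hν hs, h1, D.completed_eq hν (by
    rw [h2, Complex.Gamma_conj]
    simpa using hs'), h2, D.Lam_conj, Complex.conj_conj, ← D.Lam_feq]
  congr 1; ring

end ThetaData

end Pool.Agent.H.MP_bac04d_nt
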