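import Mathlib

open MeasureTheory Set Filter Topology

namespace Pool.Agent.H.MP_bac04d_nt

/-! ### The elementary gap inequalities -/

lemma gap_pointwise {φ φ' : ℝ → ℝ} (hφ : ∀ x, HasDerivAt φ (φ' x) x) (hc : Continuous φ')
    {ν : ℝ} (hν : 0 ≤ ν) {a b : ℝ} (ha : 0 ≤ a) (hab : a ≤ b) :
    φ a ^ 2 * a ^ ν ≤ φ b ^ 2 * b ^ ν + ∫ v in a..b, (φ v ^ 2 + φ' v ^ 2) * v ^ ν := by
  have hφc : Continuous φ := continuous_iff_continuousAt.2 fun x => (hφ x).continuousAt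
  have hder : ∀ x, HasDerivAt (fun y => φ y ^ 2) (2 * φ x * φ' x) x := by
    intro x
    have := (hφ x).fun_pow 2
    simpa using this
  have hFTC : ∫ v in a..b, 2 * φ v * φ' v = φ b ^ 2 - φ a ^ 2 := by
    apply intervalIntegral.integral_eq_sub_of_hasDerivAt (fun x _ => hder x)
    exact (by fun_prop : Continuous fun v => 2 * φ v * φ' v).intervalIntegrable _ _
  have hc1 : Continuous fun v : ℝ => v ^ ν := Real.continuous_rpow_const hν
  have h1 : -(∫ v in a..b, 2 * φ v * φ' v) ≤ ∫ v in a..b, (φ v ^ 2 + φ' v ^ 2) := by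
    rw [← intervalIntegral.integral_neg]
    apply intervalIntegral.integral_mono_on hab
    · exact (by fun_prop : Continuous fun v => -(2 * φ v * φ' v)).intervalIntegrable _ _
    · exact (by fun_prop : Continuous fun v => (φ v ^ 2 + φ' v ^ 2)).intervalIntegrable _ _
    · intro v _
      nlinarith [sq_nonneg (φ v + φ' v)]
  have h2 : a ^ ν * ∫ v in a..b, (φ v ^ 2 + φ' v ^ 2) ≤
      ∫ v in a..b, (φ v ^ 2 + φ' v ^ 2) * v ^ ν := by
    rw [← intervalIntegral.integral_const_mul]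
    apply intervalIntegral.integral_mono_on hab
    · exact (by fun_prop : Continuous fun v => a ^ ν * (φ v ^ 2 + φ' v ^ 2)).intervalIntegrable _ _
    · exact (by fun_prop : Continuous fun v => (φ v ^ 2 + φ' v ^ 2) * v ^ ν).intervalIntegrable _ _
    · intro v hv
      have : a ^ ν ≤ v ^ ν := Real.rpow_le_rpow ha hv.1 hν
      have h0 : 0 ≤ φ v ^ 2 + φ' v ^ 2 := by positivity
      nlinarith
  have h3 : φ b ^ 2 * a ^ ν ≤ φ b ^ 2 * b ^ ν := by
    have : a ^ ν ≤ b ^ ν := Real.rpow_le_rpow ha hab hν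
    have h0 : 0 ≤ φ b ^ 2 := by positivity
    nlinarith
  have h4 : 0 ≤ a ^ ν := Real.rpow_nonneg ha ν
  have h5 : φ a ^ 2 * a ^ ν = φ b ^ 2 * a ^ ν + a ^ ν * (-(∫ v in a..b, 2 * φ v * φ' v)) := by
    rw [hFTC]; ring
  rw [h5]
  have h6 := mul_le_mul_of_nonneg_left h1 h4
  linarith

lemma gap_integral {φ φ' : ℝ → ℝ} (hφ : ∀ x, HasDerivAt φ (φ' x) x) (hc : Continuous φ')
    {ν : ℝ} (hν : 0 ≤ ν) {a b : ℝ} (ha : 0 ≤ a) (hab : a ≤ b) (hb : b - a ≤ 1 / 3) :
    ∫ v in a..b, φ v ^ 2 * v ^ ν ≤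
      1 / 2 * (φ b ^ 2 * b ^ ν) + 1 / 2 * ∫ v in a..b, φ' v ^ 2 * v ^ ν := by
  have hφc : Continuous φ := continuous_iff_continuousAt.2 fun x => (hφ x).continuousAt
  have hc1 : Continuous fun v : ℝ => v ^ ν := Real.continuous_rpow_const hν
  set R : ℝ := φ b ^ 2 * b ^ ν + ∫ v in a..b, (φ v ^ 2 + φ' v ^ 2) * v ^ ν with hR
  have hint : ∀ c d : ℝ, IntervalIntegrable (fun v => (φ v ^ 2 + φ' v ^ 2) * v ^ ν) volume c d :=
    fun c d => (by fun_prop : Continuous fun v => (φ v ^ 2 + φ' v ^ 2) * v ^ ν).intervalIntegrable _ _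
  have key : ∀ u ∈ Icc a b, φ u ^ 2 * u ^ ν ≤ R := by
    intro u hu
    have h1 := gap_pointwise hφ hc hν (ha.trans hu.1) hu.2
    have h2 : ∫ v in u..b, (φ v ^ 2 + φ' v ^ 2) * v ^ ν ≤
        ∫ v in a..b, (φ v ^ 2 + φ' v ^ 2) * v ^ ν := by
      rw [← intervalIntegral.integral_add_adjacent_intervals (hint a u) (hint u b)]
      have : 0 ≤ ∫ v in a..u, (φ v ^ 2 + φ' v ^ 2) * v ^ ν := by
        apply intervalIntegral.integral_nonneg hu.1
        intro v hv
        have : 0 ≤ v ^ ν := Real.rpow_nonneg (ha.trans hv.1) ν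
        positivity
      linarith
    rw [hR]; linarith
  have h1 : ∫ v in a..b, φ v ^ 2 * v ^ ν ≤ ∫ _v in a..b, R := by
    apply intervalIntegral.integral_mono_on hab
    · exact (by fun_prop : Continuous fun v => φ v ^ 2 * v ^ ν).intervalIntegrable _ _
    · exact continuous_const.intervalIntegrable _ _
    · intro v hv; exact key v hv
  rw [intervalIntegral.integral_const, smul_eq_mul] at h1
  have hR0 : 0 ≤ R := by
    have := key b ⟨hab, le_rfl⟩
    have h0 : 0 ≤ b ^ ν := Real.rpow_nonneg (ha.trans hab) ν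
    have : 0 ≤ φ b ^ 2 * b ^ ν := by positivity
    linarith
  have h2 : (b - a) * R ≤ 1 / 3 * R := mul_le_mul_of_nonneg_right hb hR0
  have h3 : ∫ v in a..b, (φ v ^ 2 + φ' v ^ 2) * v ^ ν =
      (∫ v in a..b, φ v ^ 2 * v ^ ν) + ∫ v in a..b, φ' v ^ 2 * v ^ ν := by
    rw [← intervalIntegral.integral_add]
    · congr 1; ext v; ring
    · exact (by fun_prop : Continuous fun v => φ v ^ 2 * v ^ ν).intervalIntegrable _ _
    · exact (by fun_prop : Continuous fun v => φ' v ^ 2 * v ^ ν).intervalIntegrable _ _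
  rw [h3] at hR
  linarith

/-- Sum over finitely many gaps. -/
lemma gaps_sum {φ φ' : ℝ → ℝ} (hφ : ∀ x, HasDerivAt φ (φ' x) x) (hc : Continuous φ')
    {ν : ℝ} (hν : 0 ≤ ν) (b : ℕ → ℝ) (hb0 : b 0 = 0) (hmono : Monotone b)
    (hgap : ∀ n, b (n + 1) - b n ≤ 1 / 3) (N : ℕ) :
    ∫ v in (0 : ℝ)..b N, φ v ^ 2 * v ^ ν ≤
      1 / 2 * (∑ k ∈ Finset.range N, φ (b (k + 1)) ^ 2 * b (k + 1) ^ ν) +
        1 / 2 * ∫ v in (0 : ℝ)..b N, φ' v ^ 2 * v ^ ν := by
  have hφc : Continuous φ := continuous_iff_continuousAt.2 fun x => (hφ x).continuousAt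
  have hc1 : Continuous fun v : ℝ => v ^ ν := Real.continuous_rpow_const hν
  have hI1 : ∀ c d : ℝ, IntervalIntegrable (fun v => φ v ^ 2 * v ^ ν) volume c d :=
    fun c d => (by fun_prop : Continuous fun v => φ v ^ 2 * v ^ ν).intervalIntegrable _ _
  have hI2 : ∀ c d : ℝ, IntervalIntegrable (fun v => φ' v ^ 2 * v ^ ν) volume c d :=
    fun c d => (by fun_prop : Continuous fun v => φ' v ^ 2 * v ^ ν).intervalIntegrable _ _
  rw [← hb0, ← intervalIntegral.sum_integral_adjacent_intervals (fun k _ => hI1 _ _),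
    ← intervalIntegral.sum_integral_adjacent_intervals (fun k _ => hI2 _ _), Finset.mul_sum,
    Finset.mul_sum, ← Finset.sum_add_distrib]
  apply Finset.sum_le_sum
  intro k _
  have h0 : 0 ≤ b k := hb0 ▸ hmono (Nat.zero_le k)
  exact gap_integral hφ hc hν h0 (hmono (Nat.le_succ k)) (hgap k)

/-- The sampling inequality on the half line. -/
lemma sampling {φ φ' : ℝ → ℝ} (hφ : ∀ x, HasDerivAt φ (φ' x) x) (hc : Continuous φ')
    {ν : ℝ} (hν : 0 ≤ ν) (b : ℕ → ℝ) (hb0 : b 0 = 0) (hmono : Monotone b)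
    (hgap : ∀ n, b (n + 1) - b n ≤ 1 / 3) (htop : Tendsto b atTop atTop)
    (hint : IntegrableOn (fun v => φ v ^ 2 * v ^ ν) (Ioi 0))
    (hint' : IntegrableOn (fun v => φ' v ^ 2 * v ^ ν) (Ioi 0))
    (hsum : Summable fun k => φ (b (k + 1)) ^ 2 * b (k + 1) ^ ν) :
    ∫ v in Ioi (0 : ℝ), φ v ^ 2 * v ^ ν ≤
      1 / 2 * (∑' k, φ (b (k + 1)) ^ 2 * b (k + 1) ^ ν) +
        1 / 2 * ∫ v in Ioi (0 : ℝ), φ' v ^ 2 * v ^ ν := by
  have h1 := intervalIntegral_tendsto_integral_Ioi 0 hint htop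
  have h2 := intervalIntegral_tendsto_integral_Ioi 0 hint' htop
  have h3 := hsum.hasSum.tendsto_sum_nat
  exact le_of_tendsto_of_tendsto' h1 ((h3.const_mul _).add (h2.const_mul _))
    (fun N => gaps_sum hφ hc hν b hb0 hmono hgap N)

/-! ### Finite sums of exponentials and the Plancherel identity -/

/-- A finite sum of exponentials. -/
noncomputable def expSum {ι : Type*} (S : Finset ι) (x s : ι → ℝ) (u : ℝ) : ℝ :=
  ∑ i ∈ S, x i * Real.exp (-(s i * u))

variable {ι : Type*} (S : Finset ι) (x s : ι → ℝ)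

lemma hasDerivAt_expSum (u : ℝ) :
    HasDerivAt (expSum S x s) (expSum S (fun i => -(s i * x i)) s u) u := by
  unfold expSum
  apply HasDerivAt.fun_sum
  intro i _
  have h1 : HasDerivAt (fun u : ℝ => -(s i * u)) (-(s i)) u := by
    simpa using ((hasDerivAt_id' u).const_mul (s i)).fun_neg
  have := (h1.exp).const_mul (x i)
  have e : -(s i * x i) * Real.exp (-(s i * u)) = x i * (Real.exp (-(s i * u)) * -s i) := by ring
  rw [e]
  exact this

lemma continuous_expSum : Continuous (expSum S x s) := by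
  unfold expSum; fun_prop

lemma integrableOn_rpow_mul_exp {ν : ℝ} (hν : 0 ≤ ν) {r : ℝ} (hr : 0 < r) :
    IntegrableOn (fun v : ℝ => v ^ ν * Real.exp (-(r * v))) (Ioi 0) := by
  have := integrableOn_rpow_mul_exp_neg_mul_rpow (p := 1) (s := ν) (b := r) (by linarith) one_pos hr
  refine this.congr_fun ?_ measurableSet_Ioi
  intro v hv
  simp

lemma expSum_sq_mul (ν u : ℝ) : expSum S x s u ^ 2 * u ^ ν =
    ∑ i ∈ S, ∑ j ∈ S, x i * x j * (u ^ ν * Real.exp (-((s i + s j) * u))) := by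
  unfold expSum
  rw [sq, Finset.sum_mul_sum, Finset.sum_mul]
  refine Finset.sum_congr rfl fun i _ => ?_
  rw [Finset.sum_mul]
  refine Finset.sum_congr rfl fun j _ => ?_
  have : Real.exp (-((s i + s j) * u)) = Real.exp (-(s i * u)) * Real.exp (-(s j * u)) := by
    rw [← Real.exp_add]; congr 1; ring
  rw [this]; ring

lemma integrableOn_expSum_sq {ν : ℝ} (hν : 0 ≤ ν) (hs : ∀ i ∈ S, 0 < s i) :
    IntegrableOn (fun u => expSum S x s u ^ 2 * u ^ ν) (Ioi 0) := by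
  simp_rw [expSum_sq_mul]
  refine integrable_finsetSum _ fun i hi => integrable_finsetSum _ fun j hj => ?_
  exact (integrableOn_rpow_mul_exp hν (add_pos (hs i hi) (hs j hj))).const_mul _

lemma integral_expSum_sq {ν : ℝ} (hν : 0 ≤ ν) (hs : ∀ i ∈ S, 0 < s i) :
    ∫ u in Ioi (0 : ℝ), expSum S x s u ^ 2 * u ^ ν =
      ∑ i ∈ S, ∑ j ∈ S, x i * x j * ((1 / (s i + s j)) ^ (ν + 1) * Real.Gamma (ν + 1)) := by
  simp_rw [expSum_sq_mul]
  rw [integral_finsetSum _ fun i hi => integrable_finsetSum _ fun j hj =>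
    (integrableOn_rpow_mul_exp hν (add_pos (hs i hi) (hs j hj))).const_mul _]
  refine Finset.sum_congr rfl fun i hi => ?_
  rw [integral_finsetSum _ fun j hj =>
    (integrableOn_rpow_mul_exp hν (add_pos (hs i hi) (hs j hj))).const_mul _]
  refine Finset.sum_congr rfl fun j hj => ?_
  rw [integral_const_mul]
  congr 1
  have := Real.integral_rpow_mul_exp_neg_mul_Ioi (a := ν + 1) (r := s i + s j) (by linarith)
    (add_pos (hs i hi) (hs j hj))
  simpa using this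

/-- Plancherel identity, first half. -/
lemma plancherel {ν : ℝ} (hν : 0 ≤ ν) (hs : ∀ i ∈ S, 0 < s i) :
    ∫ u in Ioi (0 : ℝ), expSum S (fun i => -(s i * x i)) s u ^ 2 * u ^ ν =
      ∫ u in Ioi (0 : ℝ), expSum S (fun i => x i * s i ^ (-ν)) (fun i => (s i)⁻¹) u ^ 2 * u ^ ν := by
  rw [integral_expSum_sq S _ _ hν hs,
    integral_expSum_sq S _ _ hν (fun i hi => inv_pos.2 (hs i hi))]
  refine Finset.sum_congr rfl fun i hi => Finset.sum_congr rfl fun j hj => ?_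
  have hi' := hs i hi
  have hj' := hs j hj
  have hsum : 1 / ((s i)⁻¹ + (s j)⁻¹) = (s i * s j) * (1 / (s i + s j)) := by
    field_simp
    ring
  have h1 : (1 / ((s i)⁻¹ + (s j)⁻¹)) ^ (ν + 1) =
      (s i ^ ν * s i) * (s j ^ ν * s j) * (1 / (s i + s j)) ^ (ν + 1) := by
    rw [hsum, Real.mul_rpow (by positivity) (by positivity), Real.mul_rpow hi'.le hj'.le,
      Real.rpow_add hi', Real.rpow_add hj', Real.rpow_one, Real.rpow_one]
  rw [h1, Real.rpow_neg hi'.le, Real.rpow_neg hj'.le]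
  have h3 : s i ^ ν ≠ 0 := (Real.rpow_pos_of_pos hi' ν).ne'
  have h4 : s j ^ ν ≠ 0 := (Real.rpow_pos_of_pos hj' ν).ne'
  field_simp

/-- Plancherel identity, second half. -/
lemma plancherel' {ν : ℝ} (hν : 0 ≤ ν) (hs : ∀ i ∈ S, 0 < s i) :
    ∫ u in Ioi (0 : ℝ), expSum S (fun i => -((s i)⁻¹ * (x i * s i ^ (-ν)))) (fun i => (s i)⁻¹) u ^ 2
        * u ^ ν =
      ∫ u in Ioi (0 : ℝ), expSum S x s u ^ 2 * u ^ ν := by
  rw [integral_expSum_sq S _ _ hν hs,
    integral_expSum_sq S _ _ hν (fun i hi => inv_pos.2 (hs i hi))]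
  refine Finset.sum_congr rfl fun i hi => Finset.sum_congr rfl fun j hj => ?_
  have hi' := hs i hi
  have hj' := hs j hj
  have hsum : 1 / ((s i)⁻¹ + (s j)⁻¹) = (s i * s j) * (1 / (s i + s j)) := by
    field_simp
    ring
  have h1 : (1 / ((s i)⁻¹ + (s j)⁻¹)) ^ (ν + 1) =
      (s i ^ ν * s i) * (s j ^ ν * s j) * (1 / (s i + s j)) ^ (ν + 1) := by
    rw [hsum, Real.mul_rpow (by positivity) (by positivity), Real.mul_rpow hi'.le hj'.le,
      Real.rpow_add hi', Real.rpow_add hj', Real.rpow_one, Real.rpow_one]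
  rw [h1, Real.rpow_neg hi'.le, Real.rpow_neg hj'.le]
  have h3 : s i ^ ν ≠ 0 := (Real.rpow_pos_of_pos hi' ν).ne'
  have h4 : s j ^ ν ≠ 0 := (Real.rpow_pos_of_pos hj' ν).ne'
  field_simp

end Pool.Agent.H.MP_bac04d_nt
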