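import Pool.Agent.H.MP_bac04d_nt.Orders

open Filter Topology

namespace Pool.Agent.H.MP_bac04d_nt

variable {ι : Type*} [Fintype ι]

/-- Index set of the zeros with `C < -Re s ≤ R`. -/
noncomputable def zset (lam : ι → ℝ) (mu : ι → ℂ) (C R : ℝ) : Finset (Σ _ : ι, ℕ) :=
  Finset.univ.sigma fun i => Finset.Ioc ⌊lam i * C - (mu i).re⌋₊ ⌊lam i * R - (mu i).re⌋₊

/-- The zero with a given index. -/
noncomputable def zpt (lam : ι → ℝ) (mu : ι → ℂ) (p : Σ _ : ι, ℕ) : ℂ :=
  -((p.2 : ℂ) + mu p.1) / lam p.1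

lemma zpt_eq_iff {lam : ι → ℝ} (hlam : ∀ i, 0 < lam i) (mu : ι → ℂ) (i : ι) (k : ℕ) (s : ℂ) :
    zpt lam mu ⟨i, k⟩ = s ↔ lam i * s + mu i = -k := by
  have h : (lam i : ℂ) ≠ 0 := by exact_mod_cast (hlam i).ne'
  unfold zpt
  simp only
  rw [div_eq_iff h]
  constructor
  · intro h1; linear_combination -h1
  · intro h1; linear_combination -h1

open Classical in
lemma fiber_card {lam : ι → ℝ} (hlam : ∀ i, 0 < lam i) (mu : ι → ℂ) {C R : ℝ} (hCR : C ≤ R)
    (hC : ∀ i, 0 ≤ lam i * C - (mu i).re) (s : ℂ) :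
    ((zset lam mu C R).filter fun p => zpt lam mu p = s).card =
      if C < -s.re ∧ -s.re ≤ R then zcount lam mu s else 0 := by
  have hR : ∀ i, 0 ≤ lam i * R - (mu i).re := fun i => by
    have := hC i
    have h2 := mul_le_mul_of_nonneg_left hCR (hlam i).le
    linarith
  have hre : ∀ (i : ι) (k : ℕ), lam i * s + mu i = -k → lam i * s.re + (mu i).re = -k := by
    intro i k h
    have := congrArg Complex.re h
    simpa using this
  have hmem : ∀ (i : ι) (k : ℕ), lam i * s + mu i = -k →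
      ((⟨i, k⟩ : Σ _ : ι, ℕ) ∈ zset lam mu C R ↔ C < -s.re ∧ -s.re ≤ R) := by
    intro i k h
    have h1 := hre i k h
    unfold zset
    simp only [Finset.mem_sigma, Finset.mem_univ, true_and, Finset.mem_Ioc]
    rw [Nat.floor_lt (hC i), Nat.le_floor_iff (hR i)]
    have hl := hlam i
    constructor
    · rintro ⟨h2, h3⟩
      constructor
      · by_contra h4
        have h4' := mul_le_mul_of_nonneg_left (not_lt.1 h4) hl.le
        linarith
      · by_contra h4
        have h4' := mul_lt_mul_of_pos_left (not_le.1 h4) hl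
        linarith
    · rintro ⟨h2, h3⟩
      have h2' := mul_lt_mul_of_pos_left h2 hl
      have h3' := mul_le_mul_of_nonneg_left h3 hl.le
      constructor <;> linarith
  split_ifs with hs
  · unfold zcount
    refine Finset.card_bij (fun p _ => p.1) ?_ ?_ ?_
    · rintro ⟨i, k⟩ hp
      rw [Finset.mem_filter] at hp ⊢
      exact ⟨Finset.mem_univ _, k, (zpt_eq_iff hlam mu i k s).1 hp.2⟩
    · rintro ⟨i, k⟩ hp ⟨j, l⟩ hq hij
      rw [Finset.mem_filter] at hp hq
      simp only at hij
      subst hij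
      have h1 := (zpt_eq_iff hlam mu _ _ s).1 hp.2
      have h2 := (zpt_eq_iff hlam mu _ _ s).1 hq.2
      rw [h1] at h2
      have h3 : (k : ℂ) = l := neg_injective h2
      have h4 : k = l := by exact_mod_cast h3
      rw [h4]
    · intro i hi
      rw [Finset.mem_filter] at hi
      obtain ⟨-, k, hk⟩ := hi
      exact ⟨⟨i, k⟩, Finset.mem_filter.2 ⟨(hmem i k hk).2 hs, (zpt_eq_iff hlam mu i k s).2 hk⟩, rfl⟩
  · rw [Finset.card_eq_zero, Finset.filter_eq_empty_iff]
    rintro ⟨i, k⟩ hp h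
    have hk := (zpt_eq_iff hlam mu i k s).1 h
    exact hs ((hmem i k hk).1 hp)

lemma zset_card_bounds {lam : ι → ℝ} (hlam : ∀ i, 0 < lam i) (mu : ι → ℂ) {C R : ℝ} (hCR : C ≤ R)
    (hC : ∀ i, 0 ≤ lam i * C - (mu i).re) :
    |((zset lam mu C R).card : ℝ) - (∑ i, lam i) * (R - C)| ≤ Fintype.card ι := by
  unfold zset
  rw [Finset.card_sigma]
  push_cast
  rw [Finset.sum_mul, ← Finset.sum_sub_distrib]
  refine (Finset.abs_sum_le_sum_abs _ _).trans ?_
  have : ∀ i ∈ (Finset.univ : Finset ι), |((Finset.Ioc ⌊lam i * C - (mu i).re⌋₊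
      ⌊lam i * R - (mu i).re⌋₊).card : ℝ) - lam i * (R - C)| ≤ 1 := by
    intro i _
    have hR : 0 ≤ lam i * R - (mu i).re := by
      have := hC i
      have h2 := mul_le_mul_of_nonneg_left hCR (hlam i).le
      linarith
    have hle : ⌊lam i * C - (mu i).re⌋₊ ≤ ⌊lam i * R - (mu i).re⌋₊ := by
      apply Nat.floor_mono
      have h2 := mul_le_mul_of_nonneg_left hCR (hlam i).le
      linarith
    rw [Nat.card_Ioc, Nat.cast_sub hle]
    have h1 := Nat.floor_le (hC i)
    have h2 := Nat.lt_floor_add_one (lam i * C - (mu i).re)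
    have h3 := Nat.floor_le hR
    have h4 := Nat.lt_floor_add_one (lam i * R - (mu i).re)
    rw [abs_le]
    constructor <;> linarith
  refine (Finset.sum_le_sum this).trans ?_
  simp

/-- If two families have the same numbers of zeros far to the left then the sums of the `λ`
agree. -/
theorem sum_lam_eq {κ : Type*} [Fintype κ] {lam : ι → ℝ} (hlam : ∀ i, 0 < lam i) (mu : ι → ℂ)
    {lam' : κ → ℝ} (hlam' : ∀ i, 0 < lam' i) (mu' : κ → ℂ) (C0 : ℝ)
    (h : ∀ s : ℂ, C0 < -s.re → zcount lam mu s = zcount lam' mu' s) :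
    ∑ i, lam i = ∑ i, lam' i := by
  classical
  obtain ⟨C, hC0, hC1, hC2⟩ : ∃ C : ℝ, C0 ≤ C ∧ (∀ i, 0 ≤ lam i * C - (mu i).re) ∧
      ∀ i, 0 ≤ lam' i * C - (mu' i).re := by
    refine ⟨max C0 (max (∑ i, |(mu i).re / lam i|) (∑ i, |(mu' i).re / lam' i|)), le_max_left _ _,
      fun i => ?_, fun i => ?_⟩
    · have h1 : |(mu i).re / lam i| ≤ ∑ i, |(mu i).re / lam i| :=
        Finset.single_le_sum (f := fun i => |(mu i).re / lam i|) (fun _ _ => abs_nonneg _)
          (Finset.mem_univ i)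
      have h2 : (mu i).re / lam i ≤ max C0 (max (∑ i, |(mu i).re / lam i|)
          (∑ i, |(mu' i).re / lam' i|)) :=
        (le_abs_self _).trans (h1.trans ((le_max_left _ _).trans (le_max_right _ _)))
      rw [div_le_iff₀ (hlam i)] at h2
      linarith
    · have h1 : |(mu' i).re / lam' i| ≤ ∑ i, |(mu' i).re / lam' i| :=
        Finset.single_le_sum (f := fun i => |(mu' i).re / lam' i|) (fun _ _ => abs_nonneg _)
          (Finset.mem_univ i)
      have h2 : (mu' i).re / lam' i ≤ max C0 (max (∑ i, |(mu i).re / lam i|)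
          (∑ i, |(mu' i).re / lam' i|)) :=
        (le_abs_self _).trans (h1.trans ((le_max_right _ _).trans (le_max_right _ _)))
      rw [div_le_iff₀ (hlam' i)] at h2
      linarith
  have hcard : ∀ R : ℝ, C ≤ R → (zset lam mu C R).card = (zset lam' mu' C R).card := by
    intro R hR
    set T : Finset ℂ := (zset lam mu C R).image (zpt lam mu) ∪ (zset lam' mu' C R).image (zpt lam' mu')
      with hT
    rw [Finset.card_eq_sum_card_fiberwise (f := zpt lam mu) (t := T) (s := zset lam mu C R)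
      (fun p hp => Finset.mem_union_left _ (Finset.mem_image_of_mem _ hp)),
      Finset.card_eq_sum_card_fiberwise (f := zpt lam' mu') (t := T) (s := zset lam' mu' C R)
      (fun p hp => Finset.mem_union_right _ (Finset.mem_image_of_mem _ hp))]
    refine Finset.sum_congr rfl fun s _ => ?_
    rw [fiber_card hlam mu hR hC1, fiber_card hlam' mu' hR hC2]
    split_ifs with hs
    · exact h s (lt_of_le_of_lt hC0 hs.1)
    · rfl
  by_contra hne
  set δ : ℝ := |∑ i, lam i - ∑ i, lam' i| with hδ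
  have hδ0 : 0 < δ := abs_pos.2 (sub_ne_zero.2 hne)
  set N : ℝ := Fintype.card ι + Fintype.card κ with hN
  have hN0 : 0 ≤ N := by positivity
  set R : ℝ := C + (N + 1) / δ with hR
  have hCR : C ≤ R := by
    rw [hR]
    have : 0 ≤ (N + 1) / δ := by positivity
    linarith
  have b1 := zset_card_bounds hlam mu hCR hC1
  have b2 := zset_card_bounds hlam' mu' hCR hC2
  rw [hcard R hCR] at b1
  have b3 : |(∑ i, lam i) * (R - C) - (∑ i, lam' i) * (R - C)| ≤ N := by
    have : (∑ i, lam i) * (R - C) - (∑ i, lam' i) * (R - C) =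
        (((zset lam' mu' C R).card : ℝ) - (∑ i, lam' i) * (R - C)) -
        (((zset lam' mu' C R).card : ℝ) - (∑ i, lam i) * (R - C)) := by ring
    rw [this]
    refine (abs_sub _ _).trans ?_
    rw [hN]; linarith
  rw [← sub_mul, abs_mul, ← hδ] at b3
  have hRC : |R - C| = (N + 1) / δ := by
    rw [hR, add_sub_cancel_left, abs_of_nonneg (by positivity)]
  rw [hRC, mul_div_cancel₀ _ hδ0.ne'] at b3
  linarith

end Pool.Agent.H.MP_bac04d_nt
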