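import Pool.Agent.H.MP_bac04d_nt.Counting

open Filter Topology

namespace Pool.Agent.H.MP_bac04d_nt

/-- The reflected function `s ↦ conj (f (1 - conj s))`. -/
noncomputable def til (f : ℂ → ℂ) (s : ℂ) : ℂ := (starRingEnd ℂ) (f (1 - (starRingEnd ℂ) s))

lemma differentiable_til {f : ℂ → ℂ} (hf : Differentiable ℂ f) : Differentiable ℂ (til f) := by
  have h1 : Differentiable ℂ fun z => (starRingEnd ℂ) (f ((starRingEnd ℂ) z)) := by
    intro z
    have := (hf ((starRingEnd ℂ) z)).conj_conj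
    rw [Complex.conj_conj] at this
    exact this
  have h2 : til f = (fun z => (starRingEnd ℂ) (f ((starRingEnd ℂ) z))) ∘ fun s => 1 - s := by
    ext s; simp [til]
  rw [h2]
  exact h1.comp (by fun_prop)

lemma eq_of_codiscrete {f g : ℂ → ℂ} (hf : Continuous f) (hg : Continuous g)
    (h : f =ᶠ[codiscrete ℂ] g) : f = g := by
  ext z
  have h2 := mem_codiscrete.1 h z
  rw [disjoint_principal_right, compl_compl] at h2
  have h3 : Tendsto f (𝓝[≠] z) (𝓝 (f z)) := hf.continuousAt.tendsto.mono_left nhdsWithin_le_nhds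
  have h4 : Tendsto g (𝓝[≠] z) (𝓝 (g z)) := hg.continuousAt.tendsto.mono_left nhdsWithin_le_nhds
  have h5 : Tendsto f (𝓝[≠] z) (𝓝 (g z)) := by
    refine h4.congr' ?_
    filter_upwards [h2] with y hy
    exact hy.symm
  exact tendsto_nhds_unique h3 h5

lemma ne_codiscrete {f : ℂ → ℂ} (hf : Differentiable ℂ f) (h0 : ∃ s, f s ≠ 0) :
    ∀ᶠ s in codiscrete ℂ, f s ≠ 0 := by
  obtain ⟨x, hx⟩ := h0
  have a1 : AnalyticOnNhd ℂ f Set.univ := fun z _ => hf.analyticAt z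
  have := a1.preimage_zero_mem_codiscrete hx
  filter_upwards [this] with s hs
  simpa using hs

lemma E_ne_zero {ι : Type*} [Fintype ι] (lam : ι → ℝ) (mu : ι → ℂ) {s : ℂ}
    (h : ∀ i, 0 < lam i * s.re + (mu i).re) : E lam mu s ≠ 0 := by
  unfold E
  rw [Finset.prod_ne_zero_iff]
  intro i _
  unfold invGamma
  apply inv_ne_zero
  apply Complex.Gamma_ne_zero_of_re_pos
  simpa using h i

lemma exists_right {ι : Type*} [Fintype ι] {lam : ι → ℝ} (hlam : ∀ i, 0 < lam i) (mu : ι → ℂ) :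
    ∃ C : ℝ, ∀ s : ℂ, C < s.re → E lam mu s ≠ 0 := by
  refine ⟨∑ i, |(mu i).re / lam i|, fun s hs => E_ne_zero lam mu fun i => ?_⟩
  have h1 : |(mu i).re / lam i| ≤ ∑ i, |(mu i).re / lam i| :=
    Finset.single_le_sum (f := fun i => |(mu i).re / lam i|) (fun _ _ => abs_nonneg _)
      (Finset.mem_univ i)
  have h2 : -((mu i).re / lam i) < s.re := lt_of_le_of_lt ((neg_le_abs _).trans h1) hs
  have h3 := mul_lt_mul_of_pos_left h2 (hlam i)
  have h4 : lam i * -((mu i).re / lam i) = -(mu i).re := by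
    field_simp [(hlam i).ne']
  rw [h4] at h3
  linarith

lemma exists_left_til {ι : Type*} [Fintype ι] {lam : ι → ℝ} (hlam : ∀ i, 0 < lam i) (mu : ι → ℂ) :
    ∃ C : ℝ, ∀ s : ℂ, C < -s.re → til (E lam mu) s ≠ 0 := by
  obtain ⟨C, hC⟩ := exists_right hlam mu
  refine ⟨C - 1, fun s hs => ?_⟩
  unfold til
  rw [Ne, map_eq_zero]
  apply hC
  simp; linarith

/-- The cross-multiplied identity of entire functions. -/
lemma cross {A B A2 B2 F : ℂ → ℂ} (hA : Differentiable ℂ A) (hB : Differentiable ℂ B)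
    (hA2 : Differentiable ℂ A2) (hB2 : Differentiable ℂ B2) (hF : Differentiable ℂ F)
    (hA0 : ∃ s, A s ≠ 0) (hA20 : ∃ s, A2 s ≠ 0) (hF0 : ∃ s, F s ≠ 0)
    (hA0' : ∃ s, til A s ≠ 0) (hA20' : ∃ s, til A2 s ≠ 0) (hF0' : ∃ s, til F s ≠ 0)
    {Q Q2 : ℝ} (hQ : 0 < Q) (hQ2 : 0 < Q2) {ω ω2 : ℂ}
    (h : (fun s : ℂ => (Q : ℂ) ^ s * ((A s)⁻¹ * B s) * F s) =ᶠ[codiscrete ℂ]
      fun s : ℂ => ω * (starRingEnd ℂ) ((Q : ℂ) ^ (1 - (starRingEnd ℂ) s) *
        ((A (1 - (starRingEnd ℂ) s))⁻¹ * B (1 - (starRingEnd ℂ) s)) * F (1 - (starRingEnd ℂ) s)))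
    (h2 : (fun s : ℂ => (Q2 : ℂ) ^ s * ((A2 s)⁻¹ * B2 s) * F s) =ᶠ[codiscrete ℂ]
      fun s : ℂ => ω2 * (starRingEnd ℂ) ((Q2 : ℂ) ^ (1 - (starRingEnd ℂ) s) *
        ((A2 (1 - (starRingEnd ℂ) s))⁻¹ * B2 (1 - (starRingEnd ℂ) s)) *
          F (1 - (starRingEnd ℂ) s))) :
    (fun s : ℂ => (ω2 * (Q : ℂ) ^ s * til (fun s => (Q2 : ℂ) ^ s) s * til A s * til B2 s) *
      (B s * A2 s)) =
    (fun s : ℂ => (ω * (Q2 : ℂ) ^ s * til (fun s => (Q : ℂ) ^ s) s * til A2 s * til B s) *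
      (B2 s * A s)) := by
  have hQ' : (Q : ℂ) ≠ 0 := by exact_mod_cast hQ.ne'
  have hQ2' : (Q2 : ℂ) ≠ 0 := by exact_mod_cast hQ2.ne'
  have dQ : Differentiable ℂ fun s : ℂ => (Q : ℂ) ^ s := fun s =>
    differentiableAt_id.const_cpow (Or.inl hQ')
  have dQ2 : Differentiable ℂ fun s : ℂ => (Q2 : ℂ) ^ s := fun s =>
    differentiableAt_id.const_cpow (Or.inl hQ2')
  apply eq_of_codiscrete
  · have c1 := dQ.continuous
    have c2 := (differentiable_til dQ2).continuous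
    have c3 := (differentiable_til hA).continuous
    have c4 := (differentiable_til hB2).continuous
    have c5 := hB.continuous
    have c6 := hA2.continuous
    fun_prop
  · have c1 := dQ2.continuous
    have c2 := (differentiable_til dQ).continuous
    have c3 := (differentiable_til hA2).continuous
    have c4 := (differentiable_til hB).continuous
    have c5 := hB2.continuous
    have c6 := hA.continuous
    fun_prop
  · filter_upwards [h, h2, ne_codiscrete hA hA0, ne_codiscrete hA2 hA20, ne_codiscrete hF hF0,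
      ne_codiscrete (differentiable_til hA) hA0', ne_codiscrete (differentiable_til hA2) hA20',
      ne_codiscrete (differentiable_til hF) hF0'] with s e1 e2 n1 n2 n3 n4 n5 n6
    simp only [map_mul, map_inv₀] at e1 e2
    unfold til at n4 n5 n6 ⊢
    generalize (starRingEnd ℂ) (A (1 - (starRingEnd ℂ) s)) = tA at *
    generalize (starRingEnd ℂ) (B (1 - (starRingEnd ℂ) s)) = tB at *
    generalize (starRingEnd ℂ) (A2 (1 - (starRingEnd ℂ) s)) = tA2 at *
    generalize (starRingEnd ℂ) (B2 (1 - (starRingEnd ℂ) s)) = tB2 at *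
    generalize (starRingEnd ℂ) (F (1 - (starRingEnd ℂ) s)) = tF at *
    generalize (starRingEnd ℂ) ((Q : ℂ) ^ (1 - (starRingEnd ℂ) s)) = tQ at *
    generalize (starRingEnd ℂ) ((Q2 : ℂ) ^ (1 - (starRingEnd ℂ) s)) = tQ2 at *
    have e3 : (Q : ℂ) ^ s * B s * F s * tA = ω * tQ * tB * tF * A s := by
      have : (Q : ℂ) ^ s * B s * F s * tA = ((Q : ℂ) ^ s * ((A s)⁻¹ * B s) * F s) * A s * tA := by
        field_simp
      rw [this, e1]; field_simp
    have e4 : (Q2 : ℂ) ^ s * B2 s * F s * tA2 = ω2 * tQ2 * tB2 * tF * A2 s := by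
      have : (Q2 : ℂ) ^ s * B2 s * F s * tA2 =
          ((Q2 : ℂ) ^ s * ((A2 s)⁻¹ * B2 s) * F s) * A2 s * tA2 := by
        field_simp
      rw [this, e2]; field_simp
    have hne : F s * tF ≠ 0 := mul_ne_zero n3 n6
    apply mul_left_cancel₀ hne
    linear_combination (ω2 * tQ2 * tB2 * tF * A2 s) * e3 - (ω * tQ * tB * tF * A s) * e4

lemma til_ne_zero_iff {f : ℂ → ℂ} : (∃ s, til f s ≠ 0) ↔ ∃ s, f s ≠ 0 := by
  constructor
  · rintro ⟨s, hs⟩
    refine ⟨1 - (starRingEnd ℂ) s, ?_⟩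
    unfold til at hs
    rwa [Ne, map_eq_zero] at hs
  · rintro ⟨s, hs⟩
    refine ⟨(starRingEnd ℂ) (1 - s), ?_⟩
    unfold til
    rw [Ne, map_eq_zero]
    simpa using hs

/-- The degree is determined by the function. -/
theorem degree_unique_core {a b a2 b2 : Type*} [Fintype a] [Fintype b] [Fintype a2] [Fintype b2]
    {lam : a → ℝ} (hlam : ∀ i, 0 < lam i) (mu : a → ℂ)
    {lam' : b → ℝ} (hlam' : ∀ i, 0 < lam' i) (mu' : b → ℂ)
    {lam2 : a2 → ℝ} (hlam2 : ∀ i, 0 < lam2 i) (mu2 : a2 → ℂ)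
    {lam2' : b2 → ℝ} (hlam2' : ∀ i, 0 < lam2' i) (mu2' : b2 → ℂ)
    {F : ℂ → ℂ} (hF : Differentiable ℂ F) (hF0 : ∃ s, F s ≠ 0)
    {Q Q2 : ℝ} (hQ : 0 < Q) (hQ2 : 0 < Q2) {ω ω2 : ℂ} (hω : ω ≠ 0) (hω2 : ω2 ≠ 0)
    (h : (fun s : ℂ => (Q : ℂ) ^ s * ((E lam mu s)⁻¹ * E lam' mu' s) * F s) =ᶠ[codiscrete ℂ]
      fun s : ℂ => ω * (starRingEnd ℂ) ((Q : ℂ) ^ (1 - (starRingEnd ℂ) s) *
        ((E lam mu (1 - (starRingEnd ℂ) s))⁻¹ * E lam' mu' (1 - (starRingEnd ℂ) s)) *
          F (1 - (starRingEnd ℂ) s)))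
    (h2 : (fun s : ℂ => (Q2 : ℂ) ^ s * ((E lam2 mu2 s)⁻¹ * E lam2' mu2' s) * F s)
      =ᶠ[codiscrete ℂ]
      fun s : ℂ => ω2 * (starRingEnd ℂ) ((Q2 : ℂ) ^ (1 - (starRingEnd ℂ) s) *
        ((E lam2 mu2 (1 - (starRingEnd ℂ) s))⁻¹ * E lam2' mu2' (1 - (starRingEnd ℂ) s)) *
          F (1 - (starRingEnd ℂ) s))) :
    ∑ i, lam i - ∑ i, lam' i = ∑ i, lam2 i - ∑ i, lam2' i := by
  have r1 := exists_right hlam mu
  have r2 := exists_right hlam2 mu2
  have hA0 : ∃ s, E lam mu s ≠ 0 := by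
    obtain ⟨C, hC⟩ := r1
    exact ⟨((C + 1 : ℝ) : ℂ), hC _ (by simp)⟩
  have hA20 : ∃ s, E lam2 mu2 s ≠ 0 := by
    obtain ⟨C, hC⟩ := r2
    exact ⟨((C + 1 : ℝ) : ℂ), hC _ (by simp)⟩
  have key := cross (differentiable_E lam mu) (differentiable_E lam' mu')
    (differentiable_E lam2 mu2) (differentiable_E lam2' mu2') hF hA0 hA20 hF0
    (til_ne_zero_iff.2 hA0) (til_ne_zero_iff.2 hA20) (til_ne_zero_iff.2 hF0) hQ hQ2 h h2
  obtain ⟨C1, hC1⟩ := exists_left_til hlam mu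
  obtain ⟨C2, hC2⟩ := exists_left_til hlam' mu'
  obtain ⟨C3, hC3⟩ := exists_left_til hlam2 mu2
  obtain ⟨C4, hC4⟩ := exists_left_til hlam2' mu2'
  have hQ' : (Q : ℂ) ≠ 0 := by exact_mod_cast hQ.ne'
  have hQ2' : (Q2 : ℂ) ≠ 0 := by exact_mod_cast hQ2.ne'
  have dQ : Differentiable ℂ fun s : ℂ => (Q : ℂ) ^ s := fun s =>
    differentiableAt_id.const_cpow (Or.inl hQ')
  have dQ2 : Differentiable ℂ fun s : ℂ => (Q2 : ℂ) ^ s := fun s =>
    differentiableAt_id.const_cpow (Or.inl hQ2')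
  have nQ : ∀ s : ℂ, (Q : ℂ) ^ s ≠ 0 := fun s => by
    rw [Complex.cpow_ne_zero_iff]; left; exact hQ'
  have nQ2 : ∀ s : ℂ, (Q2 : ℂ) ^ s ≠ 0 := fun s => by
    rw [Complex.cpow_ne_zero_iff]; left; exact hQ2'
  have ntQ : ∀ s : ℂ, til (fun s => (Q : ℂ) ^ s) s ≠ 0 := fun s => by
    unfold til; rw [Ne, map_eq_zero]; exact nQ _
  have ntQ2 : ∀ s : ℂ, til (fun s => (Q2 : ℂ) ^ s) s ≠ 0 := fun s => by
    unfold til; rw [Ne, map_eq_zero]; exact nQ2 _
  -- the two combined families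
  have fam1 : (fun s => E lam' mu' s * E lam2 mu2 s) =
      E (Sum.elim lam' lam2) (Sum.elim mu' mu2) := by
    ext s; unfold E; rw [Fintype.prod_sum_type]; rfl
  have fam2 : (fun s => E lam2' mu2' s * E lam mu s) =
      E (Sum.elim lam2' lam) (Sum.elim mu2' mu) := by
    ext s; unfold E; rw [Fintype.prod_sum_type]; rfl
  have p1 : ∀ i, 0 < (Sum.elim lam' lam2) i := by rintro (i | i) <;> simp [hlam', hlam2]
  have p2 : ∀ i, 0 < (Sum.elim lam2' lam) i := by rintro (i | i) <;> simp [hlam2', hlam]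
  have main := sum_lam_eq p1 (Sum.elim mu' mu2) p2 (Sum.elim mu2' mu)
    (max (max C1 C2) (max C3 C4)) (by
      intro s hs
      have s1 : C1 < -s.re := lt_of_le_of_lt ((le_max_left _ _).trans (le_max_left _ _)) hs
      have s2 : C2 < -s.re := lt_of_le_of_lt ((le_max_right _ _).trans (le_max_left _ _)) hs
      have s3 : C3 < -s.re := lt_of_le_of_lt ((le_max_left _ _).trans (le_max_right _ _)) hs
      have s4 : C4 < -s.re := lt_of_le_of_lt ((le_max_right _ _).trans (le_max_right _ _)) hs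
      have u1 : Differentiable ℂ fun s : ℂ => ω2 * (Q : ℂ) ^ s * til (fun s => (Q2 : ℂ) ^ s) s *
          til (E lam mu) s * til (E lam2' mu2') s :=
        ((((differentiable_const _).mul dQ).mul (differentiable_til dQ2)).mul
          (differentiable_til (differentiable_E _ _))).mul (differentiable_til (differentiable_E _ _))
      have u2 : Differentiable ℂ fun s : ℂ => ω * (Q2 : ℂ) ^ s * til (fun s => (Q : ℂ) ^ s) s *
          til (E lam2 mu2) s * til (E lam' mu') s :=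
        ((((differentiable_const _).mul dQ2).mul (differentiable_til dQ)).mul
          (differentiable_til (differentiable_E _ _))).mul (differentiable_til (differentiable_E _ _))
      have o1 : analyticOrderAt (fun s : ℂ => ω2 * (Q : ℂ) ^ s * til (fun s => (Q2 : ℂ) ^ s) s *
          til (E lam mu) s * til (E lam2' mu2') s) s = 0 := by
        rw [(u1.analyticAt s).analyticOrderAt_eq_zero]
        exact mul_ne_zero (mul_ne_zero (mul_ne_zero (mul_ne_zero hω2 (nQ s)) (ntQ2 s)) (hC1 s s1))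
          (hC4 s s4)
      have o2 : analyticOrderAt (fun s : ℂ => ω * (Q2 : ℂ) ^ s * til (fun s => (Q : ℂ) ^ s) s *
          til (E lam2 mu2) s * til (E lam' mu') s) s = 0 := by
        rw [(u2.analyticAt s).analyticOrderAt_eq_zero]
        exact mul_ne_zero (mul_ne_zero (mul_ne_zero (mul_ne_zero hω (nQ2 s)) (ntQ s)) (hC3 s s3))
          (hC2 s s2)
      have d1 : Differentiable ℂ (E (Sum.elim lam' lam2) (Sum.elim mu' mu2)) := differentiable_E _ _
      have d2 : Differentiable ℂ (E (Sum.elim lam2' lam) (Sum.elim mu2' mu)) := differentiable_E _ _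
      have k1 : (fun s : ℂ => (ω2 * (Q : ℂ) ^ s * til (fun s => (Q2 : ℂ) ^ s) s *
          til (E lam mu) s * til (E lam2' mu2') s) * (E lam' mu' s * E lam2 mu2 s)) =
          (fun s : ℂ => ω2 * (Q : ℂ) ^ s * til (fun s => (Q2 : ℂ) ^ s) s *
          til (E lam mu) s * til (E lam2' mu2') s) *
            E (Sum.elim lam' lam2) (Sum.elim mu' mu2) := by
        rw [← fam1]; rfl
      have k2 : (fun s : ℂ => (ω * (Q2 : ℂ) ^ s * til (fun s => (Q : ℂ) ^ s) s *
          til (E lam2 mu2) s * til (E lam' mu') s) * (E lam2' mu2' s * E lam mu s)) =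
          (fun s : ℂ => ω * (Q2 : ℂ) ^ s * til (fun s => (Q : ℂ) ^ s) s *
          til (E lam2 mu2) s * til (E lam' mu') s) *
            E (Sum.elim lam2' lam) (Sum.elim mu2' mu) := by
        rw [← fam2]; rfl
      have k3 := congrArg (fun f => analyticOrderAt f s) key
      rw [k1, k2, analyticOrderAt_mul (u1.analyticAt s) (d1.analyticAt s),
        analyticOrderAt_mul (u2.analyticAt s) (d2.analyticAt s), o1, o2, zero_add, zero_add,
        order_E p1, order_E p2] at k3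
      exact_mod_cast k3)
  rw [Fintype.sum_sum_type, Fintype.sum_sum_type] at main
  simp only [Sum.elim_inl, Sum.elim_inr] at main
  linarith

end Pool.Agent.H.MP_bac04d_nt
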