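import Pool.Agent.H.MP_bac04d_nt.Nodes

open MeasureTheory Set Filter Topology

namespace Pool.Agent.H.MP_bac04d_nt

/-- Hahn-Banach: a functional dominated by the norm of a linear image factors through it. -/
lemma exists_dual {V E : Type*} [AddCommGroup V] [Module ℝ V] [NormedAddCommGroup E]
    [NormedSpace ℝ E] (T : V →ₗ[ℝ] E) (l : V →ₗ[ℝ] ℝ) (C : ℝ) (h : ∀ c, ‖l c‖ ≤ C * ‖T c‖) :
    ∃ g : StrongDual ℝ E, ∀ c, g (T c) = l c := by
  obtain ⟨R, hR⟩ := LinearMap.exists_rightInverse_of_surjective T.rangeRestrict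
    (LinearMap.range_rangeRestrict T)
  have hR' : ∀ y : T.range, T (R y) = y := by
    intro y
    have := congrArg (fun f => (f y : E)) hR
    simpa using this
  let g0 : StrongDual ℝ T.range := LinearMap.mkContinuous (l ∘ₗ R) C (by
    intro y
    have := h (R y)
    rw [hR'] at this
    exact this)
  obtain ⟨g, hg, -⟩ := exists_extension_norm_eq T.range g0
  refine ⟨g, fun c => ?_⟩
  have h1 := hg ⟨T c, LinearMap.mem_range_self T c⟩
  simp only at h1
  rw [h1]
  change l (R ⟨T c, _⟩) = l c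
  have h2 := h (R ⟨T c, LinearMap.mem_range_self T c⟩ - c)
  rw [map_sub T, hR'] at h2
  simp only [sub_self, norm_zero, mul_zero, norm_le_zero_iff, map_sub] at h2
  linarith [sub_eq_zero.1 h2]

/-- The real Hilbert space `ℓ²`. -/
abbrev L2 : Type := lp (fun _ : ℕ => ℝ) 2

/-- Riesz for `ℓ²`. -/
lemma exists_repr (g : StrongDual ℝ L2) :
    ∃ v : ℕ → ℝ, (Summable fun k => v k ^ 2) ∧ ∀ x : L2,
      HasSum (fun k => v k * x k) (g x) := by
  let y : L2 := (InnerProductSpace.toDual ℝ L2).symm g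
  refine ⟨fun k => y k, ?_, fun x => ?_⟩
  · have := (lp.memℓp y).summable (by norm_num)
    simpa using this
  · have h1 := lp.hasSum_inner (𝕜 := ℝ) y x
    have h2 : inner ℝ y x = g x := InnerProductSpace.toDual_symm_apply
    rw [h2] at h1
    have e : (fun k => y k * x k) = fun k => inner ℝ (y k) (x k) := by
      ext k
      simp [mul_comm]
    rw [e]
    exact h1

lemma norm_sq_L2 (x : L2) : HasSum (fun k => x k ^ 2) (‖x‖ ^ 2) := by
  have := lp.hasSum_norm (p := 2) (by norm_num) x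
  simpa using this

/-- Sampling vector of a function, with square summable weights. -/
noncomputable def mkL2 (f : ℕ → ℝ) (hf : Summable fun k => f k ^ 2) : L2 :=
  ⟨f, memℓp_gen (by simpa using hf)⟩

@[simp] lemma mkL2_apply (f : ℕ → ℝ) (hf : Summable fun k => f k ^ 2) (k : ℕ) :
    mkL2 f hf k = f k := rfl

/-- The space of finitely supported measures on `(0,∞)`. -/
abbrev Meas : Type := {t : ℝ // 0 < t} →₀ ℝ

/-- The Laplace transform of `c`. -/
noncomputable def lap (c : Meas) (u : ℝ) : ℝ := expSum c.support c (fun t => (t : ℝ)) u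

/-- The dual transform. -/
noncomputable def lapDual (ν : ℝ) (c : Meas) (u : ℝ) : ℝ :=
  expSum c.support (fun t => c t * (t : ℝ) ^ (-ν)) (fun t => (t : ℝ)⁻¹) u

/-- `lap` as a linear map. -/
noncomputable def lapL (u : ℝ) : Meas →ₗ[ℝ] ℝ :=
  Finsupp.linearCombination ℝ fun t : {t : ℝ // 0 < t} => Real.exp (-((t : ℝ) * u))

/-- `lapDual` as a linear map. -/
noncomputable def lapDualL (ν u : ℝ) : Meas →ₗ[ℝ] ℝ :=
  Finsupp.linearCombination ℝ fun t : {t : ℝ // 0 < t} =>
    (t : ℝ) ^ (-ν) * Real.exp (-((t : ℝ)⁻¹ * u))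

lemma lapL_eq (c : Meas) (u : ℝ) : lapL u c = lap c u := by
  simp [lapL, lap, expSum, Finsupp.linearCombination_apply, Finsupp.sum]

lemma lapDualL_eq (ν : ℝ) (c : Meas) (u : ℝ) : lapDualL ν u c = lapDual ν c u := by
  simp [lapDualL, lapDual, expSum, Finsupp.linearCombination_apply, Finsupp.sum, mul_assoc]

/-- The weight attached to the node of index `k + 2`. -/
noncomputable def wt (ν : ℝ) (k : ℕ) : ℝ := Real.sqrt (node ν (k + 2) ^ ν)

lemma wt_sq (ν : ℝ) (k : ℕ) : wt ν k ^ 2 = node ν (k + 2) ^ ν :=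
  Real.sq_sqrt (Real.rpow_nonneg (node_nonneg ν _) ν)

lemma summable_lap {ν : ℝ} (hν : 0 < ν) (c : Meas) :
    Summable fun k => (lap c (node ν (k + 2)) * wt ν k) ^ 2 := by
  have h := (summable_nat_add_iff 2).2
    (summable_expSum_sq_node c.support c (fun t => (t : ℝ)) hν (fun i _ => i.2))
  refine h.congr fun k => ?_
  rw [mul_pow, wt_sq]; rfl

lemma summable_lapDual {ν : ℝ} (hν : 0 < ν) (c : Meas) :
    Summable fun k => (lapDual ν c (node ν (k + 2)) * wt ν k) ^ 2 := by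
  have h := (summable_nat_add_iff 2).2
    (summable_expSum_sq_node c.support (fun t => c t * (t : ℝ) ^ (-ν)) (fun t => (t : ℝ)⁻¹) hν
      (fun i _ => inv_pos.2 i.2))
  refine h.congr fun k => ?_
  rw [mul_pow, wt_sq]; rfl

/-- The sampling operator. -/
noncomputable def T1 {ν : ℝ} (hν : 0 < ν) : Meas →ₗ[ℝ] L2 where
  toFun c := mkL2 (fun k => lap c (node ν (k + 2)) * wt ν k) (summable_lap hν c)
  map_add' c d := by
    ext k
    simp only [← lapL_eq, mkL2_apply, map_add, lp.coeFn_add, Pi.add_apply]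
    ring
  map_smul' r c := by
    ext k
    simp only [← lapL_eq, mkL2_apply, map_smul, lp.coeFn_smul, Pi.smul_apply, smul_eq_mul,
      RingHom.id_apply]
    ring

/-- The dual sampling operator. -/
noncomputable def T2 {ν : ℝ} (hν : 0 < ν) : Meas →ₗ[ℝ] L2 where
  toFun c := mkL2 (fun k => lapDual ν c (node ν (k + 2)) * wt ν k) (summable_lapDual hν c)
  map_add' c d := by
    ext k
    simp only [← lapDualL_eq, mkL2_apply, map_add, lp.coeFn_add, Pi.add_apply]
    ring
  map_smul' r c := by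
    ext k
    simp only [← lapDualL_eq, mkL2_apply, map_smul, lp.coeFn_smul, Pi.smul_apply, smul_eq_mul,
      RingHom.id_apply]
    ring

lemma T1_apply {ν : ℝ} (hν : 0 < ν) (c : Meas) (k : ℕ) :
    T1 hν c k = lap c (node ν (k + 2)) * wt ν k := rfl

lemma T2_apply {ν : ℝ} (hν : 0 < ν) (c : Meas) (k : ℕ) :
    T2 hν c k = lapDual ν c (node ν (k + 2)) * wt ν k := rfl

lemma main_bound {ν : ℝ} (hν : 1 ≤ ν) (c : Meas) :
    lap c (node ν 1) ^ 2 * node ν 1 ^ ν ≤
      2 * (‖T1 (by linarith : 0 < ν) c‖ ^ 2 + ‖T2 (by linarith : 0 < ν) c‖ ^ 2) := by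
  have hν0 : 0 < ν := by linarith
  have h := main_ineq c.support c (fun t => (t : ℝ)) hν (fun i _ => i.2)
  rw [← (norm_sq_L2 (T1 hν0 c)).tsum_eq, ← (norm_sq_L2 (T2 hν0 c)).tsum_eq]
  simp only [T1_apply, T2_apply, mul_pow, wt_sq]
  exact h

/-- The key representation of the value at the first node. -/
theorem exists_coeffs {ν : ℝ} (hν : 1 ≤ ν) :
    ∃ v w : ℕ → ℝ, (Summable fun k => v k ^ 2) ∧ (Summable fun k => w k ^ 2) ∧
      ∀ t : ℝ, 0 < t → ∃ A B : ℝ,
        HasSum (fun k => v k * (Real.exp (-(t * node ν (k + 2))) * wt ν k)) A ∧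
        HasSum (fun k => w k * (t ^ (-ν) * Real.exp (-(t⁻¹ * node ν (k + 2))) * wt ν k)) B ∧
        Real.exp (-(t * node ν 1)) = A + B := by
  have hν0 : 0 < ν := by linarith
  have hn : 0 < node ν 1 ^ ν := Real.rpow_pos_of_pos (node_pos ν one_pos) ν
  let T : Meas →ₗ[ℝ] L2 × L2 := (T1 hν0).prod (T2 hν0)
  obtain ⟨g, hg⟩ := exists_dual T (lapL (node ν 1)) (Real.sqrt (4 / node ν 1 ^ ν)) (by
    intro c
    rw [lapL_eq]
    have h := main_bound hν c
    have h1 : ‖T1 hν0 c‖ ≤ ‖T c‖ := le_max_left _ _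
    have h2 : ‖T2 hν0 c‖ ≤ ‖T c‖ := le_max_right _ _
    have h3 : ‖T1 hν0 c‖ ^ 2 ≤ ‖T c‖ ^ 2 := by gcongr
    have h4 : ‖T2 hν0 c‖ ^ 2 ≤ ‖T c‖ ^ 2 := by gcongr
    apply abs_le_of_sq_le_sq' ?_ (by positivity) |> abs_le.2
    rw [mul_pow, Real.sq_sqrt (by positivity), div_mul_eq_mul_div, le_div_iff₀ hn]
    linarith)
  obtain ⟨v, hv, hv'⟩ := exists_repr (g.comp (ContinuousLinearMap.inl ℝ L2 L2))
  obtain ⟨w, hw, hw'⟩ := exists_repr (g.comp (ContinuousLinearMap.inr ℝ L2 L2))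
  refine ⟨v, w, hv, hw, fun t ht => ?_⟩
  let c : Meas := Finsupp.single ⟨t, ht⟩ 1
  refine ⟨g.comp (ContinuousLinearMap.inl ℝ L2 L2) (T1 hν0 c),
    g.comp (ContinuousLinearMap.inr ℝ L2 L2) (T2 hν0 c), ?_, ?_, ?_⟩
  rotate_left
  rotate_left
  · have h1 := hg c
    have h2 : lapL (node ν 1) c = Real.exp (-(t * node ν 1)) := by
      simp [lapL, c]
    have h3 : g (T c) = g.comp (ContinuousLinearMap.inl ℝ L2 L2) (T1 hν0 c) +
        g.comp (ContinuousLinearMap.inr ℝ L2 L2) (T2 hν0 c) := by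
      simp only [ContinuousLinearMap.comp_apply, ContinuousLinearMap.inl_apply,
        ContinuousLinearMap.inr_apply, ← map_add]
      simp [T]
    rw [← h2, ← h1, h3]
  · have h := hv' (T1 hν0 c)
    simp only [T1_apply, ← lapL_eq] at h
    simpa [lapL, c] using h
  · have h := hw' (T2 hν0 c)
    simp only [T2_apply, ← lapDualL_eq] at h
    simpa [lapDualL, c] using h

end Pool.Agent.H.MP_bac04d_nt
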