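import Mathlib

open MeasureTheory Set Filter Topology

namespace Pool.Agent.H.MP_bac04d_nt

lemma exp_abs_le_two_cosh (x : ℝ) : Real.exp |x| ≤ 2 * Real.cosh x := by
  rw [← Real.cosh_abs, Real.cosh_eq]
  have := Real.exp_pos (-|x|)
  linarith

/-- `|Γ(1/2 + iY)|² ≤ 2π e^{-π|Y|}`. -/
lemma norm_Gamma_half_sq (Y : ℝ) :
    ‖Complex.Gamma (1 / 2 + Y * Complex.I)‖ ^ 2 ≤ 2 * Real.pi * Real.exp (-(Real.pi * |Y|)) := by
  set z : ℂ := 1 / 2 + Y * Complex.I with hz
  have h1 : (1 : ℂ) - z = (starRingEnd ℂ) z := by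
    rw [hz]
    simp only [map_add, map_mul, Complex.conj_ofReal, Complex.conj_I, map_div₀, map_one, map_ofNat]
    ring
  have h2 := Complex.Gamma_mul_Gamma_one_sub z
  rw [h1, Complex.Gamma_conj, Complex.mul_conj] at h2
  have h3 : Complex.sin (Real.pi * z) = Complex.cosh (Real.pi * Y) := by
    rw [hz, ← Complex.cos_mul_I, ← Complex.sin_pi_div_two_sub, mul_add]
    rw [show (Real.pi : ℂ) * (1 / 2) + Real.pi * (Y * Complex.I) =
      Real.pi - (Real.pi / 2 - Real.pi * Y * Complex.I) by ring, Complex.sin_pi_sub]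
  rw [h3] at h2
  have h4 : Complex.normSq (Complex.Gamma z) = Real.pi / Real.cosh (Real.pi * Y) := by
    have : ((Complex.normSq (Complex.Gamma z) : ℝ) : ℂ) =
        ((Real.pi / Real.cosh (Real.pi * Y) : ℝ) : ℂ) := by
      rw [h2]; push_cast; rfl
    exact_mod_cast this
  rw [← Complex.normSq_eq_norm_sq, h4]
  have h5 := exp_abs_le_two_cosh (Real.pi * Y)
  rw [abs_mul, abs_of_pos Real.pi_pos] at h5
  rw [div_le_iff₀ (Real.cosh_pos _)]
  have h6 : Real.exp (-(Real.pi * |Y|)) * Real.exp (Real.pi * |Y|) = 1 := by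
    rw [← Real.exp_add]; simp
  have h7 : 0 ≤ 2 * Real.pi * Real.exp (-(Real.pi * |Y|)) := by positivity
  calc Real.pi = Real.pi * (Real.exp (-(Real.pi * |Y|)) * Real.exp (Real.pi * |Y|)) := by
        rw [h6, mul_one]
    _ ≤ Real.pi * (Real.exp (-(Real.pi * |Y|)) * (2 * Real.cosh (Real.pi * Y))) := by
        gcongr
    _ = _ := by ring

lemma norm_Gamma_half (Y : ℝ) :
    ‖Complex.Gamma (1 / 2 + Y * Complex.I)‖ ≤
      Real.sqrt (2 * Real.pi) * Real.exp (-(Real.pi * |Y| / 2)) := by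
  apply abs_le_of_sq_le_sq' ?_ (by positivity) |>.2
  refine (norm_Gamma_half_sq Y).trans (le_of_eq ?_)
  rw [mul_pow, Real.sq_sqrt (by positivity), ← Real.exp_nat_mul]
  congr 2
  push_cast; ring

/-- `|Γ(n + 1/2 + iY)| ≤ √(2π) (n+1/2+|Y|)^n e^{-π|Y|/2}`. -/
lemma norm_Gamma_nat_half (n : ℕ) (Y : ℝ) :
    ‖Complex.Gamma (n + 1 / 2 + Y * Complex.I)‖ ≤
      Real.sqrt (2 * Real.pi) * (n + 1 + |Y|) ^ n * Real.exp (-(Real.pi * |Y| / 2)) := by
  induction n with
  | zero => simpa using norm_Gamma_half Y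
  | succ n ih =>
    have h1 : (((n + 1 : ℕ) : ℂ) + 1 / 2 + Y * Complex.I) = (n + 1 / 2 + Y * Complex.I) + 1 := by
      push_cast; ring
    have h2 : (n + 1 / 2 + Y * Complex.I : ℂ) ≠ 0 := by
      intro h
      have := congrArg Complex.re h
      simp at this
      have h3 : (0 : ℝ) ≤ n := Nat.cast_nonneg n
      linarith
    rw [h1, Complex.Gamma_add_one _ h2, norm_mul]
    have h3 : ‖(n + 1 / 2 + Y * Complex.I : ℂ)‖ ≤ ((n + 1 : ℕ) : ℝ) + 1 + |Y| := by
      refine (norm_add_le _ _).trans ?_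
      have e1 : ‖(n + 1 / 2 : ℂ)‖ = n + 1 / 2 := by
        rw [show (n + 1 / 2 : ℂ) = ((n + 1 / 2 : ℝ) : ℂ) by push_cast; ring, Complex.norm_real,
          Real.norm_of_nonneg (by positivity)]
      have e2 : ‖(Y * Complex.I : ℂ)‖ = |Y| := by simp
      rw [e1, e2]; push_cast; linarith
    have h4 : (n + 1 + |Y|) ^ n ≤ (((n + 1 : ℕ) : ℝ) + 1 + |Y|) ^ n := by
      apply pow_le_pow_left₀ (by positivity)
      push_cast; linarith
    calc _ ≤ (((n + 1 : ℕ) : ℝ) + 1 + |Y|) *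
          (Real.sqrt (2 * Real.pi) * (n + 1 + |Y|) ^ n * Real.exp (-(Real.pi * |Y| / 2))) := by
          gcongr
      _ ≤ (((n + 1 : ℕ) : ℝ) + 1 + |Y|) *
          (Real.sqrt (2 * Real.pi) * (((n + 1 : ℕ) : ℝ) + 1 + |Y|) ^ n *
            Real.exp (-(Real.pi * |Y| / 2))) := by gcongr
      _ = _ := by ring

lemma norm_betaIntegral_le (X Y v : ℝ) :
    ‖Complex.betaIntegral (X + Y * Complex.I) v‖ ≤
      ∫ x in (0 : ℝ)..1, x ^ (X - 1) * (1 - x) ^ (v - 1) := by
  unfold Complex.betaIntegral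
  refine (intervalIntegral.norm_integral_le_integral_norm zero_le_one).trans (le_of_eq ?_)
  rw [intervalIntegral.integral_of_le zero_le_one, intervalIntegral.integral_of_le zero_le_one,
    integral_Ioc_eq_integral_Ioo, integral_Ioc_eq_integral_Ioo]
  refine setIntegral_congr_fun measurableSet_Ioo fun x hx => ?_
  have h1 : (0 : ℝ) < 1 - x := by linarith [hx.2]
  rw [norm_mul, Complex.norm_cpow_eq_rpow_re_of_pos hx.1,
    show (1 : ℂ) - x = ((1 - x : ℝ) : ℂ) by push_cast; rfl,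
    Complex.norm_cpow_eq_rpow_re_of_pos h1]
  simp

/-- Exponential decay of `Γ` on vertical lines, with a polynomial factor. -/
theorem exists_Gamma_bound {X : ℝ} (hX : 0 < X) :
    ∃ C : ℝ, 0 ≤ C ∧ ∃ n : ℕ, ∀ Y : ℝ, ‖Complex.Gamma (X + Y * Complex.I)‖ ≤
      C * (1 + |Y|) ^ n * Real.exp (-(Real.pi * |Y| / 2)) := by
  obtain ⟨n, hn⟩ := exists_nat_gt X
  set v : ℝ := n + 1 / 2 - X with hv
  have hv0 : 0 < v := by rw [hv]; linarith
  set b : ℝ := ∫ x in (0 : ℝ)..1, x ^ (X - 1) * (1 - x) ^ (v - 1) with hb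
  have hΓ : 0 < Real.Gamma v := Real.Gamma_pos_of_pos hv0
  have hb0 : 0 ≤ b := (norm_nonneg _).trans (norm_betaIntegral_le X 0 v)
  refine ⟨b / Real.Gamma v * (Real.sqrt (2 * Real.pi) * (n + 1) ^ n), by positivity, n,
    fun Y => ?_⟩
  have h1 := Complex.Gamma_mul_Gamma_eq_betaIntegral (s := X + Y * Complex.I) (t := v)
    (by simpa using hX) (by simpa using hv0)
  have h2 : (X + Y * Complex.I + v : ℂ) = n + 1 / 2 + Y * Complex.I := by
    rw [hv]; push_cast; ring
  rw [h2] at h1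
  have h3 := congrArg norm h1
  rw [norm_mul, norm_mul, Complex.Gamma_ofReal, Complex.norm_real,
    Real.norm_of_nonneg hΓ.le] at h3
  have h4 := norm_Gamma_nat_half n Y
  have h5 := norm_betaIntegral_le X Y v
  have h6 : ‖Complex.Gamma (X + Y * Complex.I)‖ * Real.Gamma v ≤
      (Real.sqrt (2 * Real.pi) * (n + 1 + |Y|) ^ n * Real.exp (-(Real.pi * |Y| / 2))) * b := by
    rw [h3]; gcongr
  have h7 : ((n : ℝ) + 1 + |Y|) ^ n ≤ ((n + 1) * (1 + |Y|)) ^ n := by
    apply pow_le_pow_left₀ (by positivity)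
    have : 0 ≤ (n : ℝ) * |Y| := by positivity
    nlinarith
  rw [← le_div_iff₀ hΓ] at h6
  refine h6.trans ?_
  rw [div_le_iff₀ hΓ]
  have e : b / Real.Gamma v * (Real.sqrt (2 * Real.pi) * (n + 1) ^ n) * (1 + |Y|) ^ n *
      Real.exp (-(Real.pi * |Y| / 2)) * Real.Gamma v =
      (Real.sqrt (2 * Real.pi) * ((n + 1) * (1 + |Y|)) ^ n * Real.exp (-(Real.pi * |Y| / 2))) * b := by
    rw [mul_pow]; field_simp
  rw [e]
  gcongr

lemma norm_sin_le (z : ℂ) : ‖Complex.sin z‖ ≤ Real.exp |z.im| := by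
  have h : Complex.sin z = (Complex.exp (-z * Complex.I) - Complex.exp (z * Complex.I)) *
      Complex.I / 2 := rfl
  rw [h, norm_div, norm_mul, Complex.norm_I, mul_one, Complex.norm_ofNat]
  rw [div_le_iff₀ two_pos]
  refine (norm_sub_le _ _).trans ?_
  rw [Complex.norm_exp, Complex.norm_exp]
  have h1 : (-z * Complex.I).re = z.im := by simp
  have h2 : (z * Complex.I).re = -z.im := by simp
  rw [h1, h2]
  have h3 : Real.exp z.im ≤ Real.exp |z.im| := Real.exp_le_exp.2 (le_abs_self _)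
  have h4 : Real.exp (-z.im) ≤ Real.exp |z.im| := Real.exp_le_exp.2 (neg_le_abs _)
  linarith

/-- Polynomial bound for the ratio of gamma factors on vertical lines to the left. -/
theorem exists_ratio_bound {ν x : ℝ} (hx1 : x < 1) (hx2 : x < ν) :
    ∃ C : ℝ, 0 ≤ C ∧ ∃ n : ℕ, ∀ w : ℂ, w.re = x →
      ‖Complex.Gamma (ν - w) * (Complex.Gamma w)⁻¹‖ ≤ C * (1 + |w.im|) ^ n := by
  obtain ⟨C1, hC1, n1, h1⟩ := exists_Gamma_bound (X := ν - x) (by linarith)
  obtain ⟨C2, hC2, n2, h2⟩ := exists_Gamma_bound (X := 1 - x) (by linarith)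
  refine ⟨C1 * C2 / Real.pi, by positivity, n1 + n2, fun w hw => ?_⟩
  have e1 : (ν - w : ℂ) = ((ν - x : ℝ) : ℂ) + ((-w.im : ℝ) : ℂ) * Complex.I := by
    apply Complex.ext <;> simp [hw]
  have e2 : (1 - w : ℂ) = ((1 - x : ℝ) : ℂ) + ((-w.im : ℝ) : ℂ) * Complex.I := by
    apply Complex.ext <;> simp [hw]
  have h3 := h1 (-w.im)
  have h4 := h2 (-w.im)
  rw [← e1, abs_neg] at h3
  rw [← e2, abs_neg] at h4
  by_cases hΓ : Complex.Gamma w = 0
  · rw [hΓ]; simp; positivity
  have h5 : (Complex.Gamma w)⁻¹ = Complex.Gamma (1 - w) * Complex.sin (Real.pi * w) / Real.pi := by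
    have h6 := Complex.Gamma_mul_Gamma_one_sub w
    have h7 : Complex.sin (Real.pi * w) ≠ 0 := by
      intro h8
      rw [h8, div_zero] at h6
      rcases mul_eq_zero.1 h6 with h9 | h9
      · exact hΓ h9
      · have : Complex.Gamma (1 - w) ≠ 0 := Complex.Gamma_ne_zero_of_re_pos (by simp [hw]; linarith)
        exact this h9
    have hpi : (Real.pi : ℂ) ≠ 0 := by exact_mod_cast Real.pi_ne_zero
    rw [eq_div_iff h7] at h6
    generalize Complex.sin (Real.pi * w) = S at h6 ⊢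
    field_simp
    linear_combination -h6
  have h8 := norm_sin_le (Real.pi * w)
  have h9 : (Real.pi * w : ℂ).im = Real.pi * w.im := by simp
  rw [h9, abs_mul, abs_of_pos Real.pi_pos] at h8
  rw [h5, norm_mul, norm_div, norm_mul, Complex.norm_real, Real.norm_of_nonneg Real.pi_pos.le]
  have h10 : Real.exp (-(Real.pi * |w.im| / 2)) * Real.exp (-(Real.pi * |w.im| / 2)) *
      Real.exp (Real.pi * |w.im|) = 1 := by
    rw [← Real.exp_add, ← Real.exp_add]
    rw [show -(Real.pi * |w.im| / 2) + -(Real.pi * |w.im| / 2) + Real.pi * |w.im| = 0 by ring]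
    exact Real.exp_zero
  calc ‖Complex.Gamma (ν - w)‖ * (‖Complex.Gamma (1 - w)‖ * ‖Complex.sin (Real.pi * w)‖ / Real.pi)
      ≤ (C1 * (1 + |w.im|) ^ n1 * Real.exp (-(Real.pi * |w.im| / 2))) *
        ((C2 * (1 + |w.im|) ^ n2 * Real.exp (-(Real.pi * |w.im| / 2))) *
          Real.exp (Real.pi * |w.im|) / Real.pi) := by gcongr
    _ = C1 * C2 / Real.pi * (1 + |w.im|) ^ (n1 + n2) *
        (Real.exp (-(Real.pi * |w.im| / 2)) * Real.exp (-(Real.pi * |w.im| / 2)) *
      Real.exp (Real.pi * |w.im|)) := by rw [pow_add]; ring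
    _ = _ := by rw [h10, mul_one]

/-- `|Γ(z)| ≤ Γ(Re z)` for `Re z > 0`. -/
lemma norm_Gamma_le {z : ℂ} (hz : 0 < z.re) : ‖Complex.Gamma z‖ ≤ Real.Gamma z.re := by
  rw [Complex.Gamma_eq_integral hz, Real.Gamma_eq_integral hz, Complex.GammaIntegral]
  refine (norm_integral_le_integral_norm _).trans (le_of_eq ?_)
  refine setIntegral_congr_fun measurableSet_Ioi fun x hx => ?_
  rw [norm_mul, Complex.norm_cpow_eq_rpow_re_of_pos hx, Complex.norm_real,
    Real.norm_of_nonneg (Real.exp_pos _).le]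
  simp

lemma norm_inv_Gamma_add_nat (z : ℂ) (hz : 1 ≤ |z.im|) (m : ℕ) :
    ‖(Complex.Gamma (z + m))⁻¹‖ ≤ ‖(Complex.Gamma z)⁻¹‖ := by
  induction m with
  | zero => simp
  | succ m ih =>
    have h1 : (z + m).im = z.im := by simp
    have h2 : 1 ≤ ‖z + m‖ := by
      refine hz.trans ?_
      rw [← h1]; exact Complex.abs_im_le_norm _
    have h3 : z + m ≠ 0 := by
      intro h; rw [h] at h2; simp at h2; linarith
    have h4 : z + ((m + 1 : ℕ) : ℂ) = (z + m) + 1 := by push_cast; ring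
    rw [h4, Complex.Gamma_add_one _ h3, mul_inv, norm_mul]
    have h5 : ‖(z + m)⁻¹‖ ≤ 1 := by
      rw [norm_inv]; exact inv_le_one_of_one_le₀ h2
    calc _ ≤ 1 * ‖(Complex.Gamma (z + m))⁻¹‖ := by gcongr
      _ ≤ _ := by rw [one_mul]; exact ih

/-- Crude growth bound for `1/Γ` in vertical strips. -/
theorem exists_inv_Gamma_bound (x1 x2 : ℝ) :
    ∃ C : ℝ, 0 ≤ C ∧ ∀ w : ℂ, x1 ≤ w.re → w.re ≤ x2 → 1 ≤ |w.im| →
      ‖(Complex.Gamma w)⁻¹‖ ≤ C * Real.exp (Real.pi * |w.im|) := by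
  obtain ⟨m, hm⟩ := exists_nat_gt x2
  have hcont : ContinuousOn Real.Gamma (Icc (1 - x2 + m) (1 - x1 + m)) := by
    intro y hy
    have : 0 < y := by linarith [hy.1]
    exact (Real.differentiableAt_Gamma (fun k => by
      have : (0 : ℝ) ≤ k := Nat.cast_nonneg k
      linarith)).continuousAt.continuousWithinAt
  obtain ⟨C, hC⟩ := isCompact_Icc.exists_bound_of_continuousOn hcont
  refine ⟨max C 0 / Real.pi, by positivity, fun w h1 h2 h3 => ?_⟩
  set z : ℂ := w - m with hz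
  have hzim : z.im = w.im := by simp [hz]
  have hzre : z.re = w.re - m := by simp [hz]
  have hw : w = z + m := by rw [hz]; ring
  have h4 := norm_inv_Gamma_add_nat z (by rw [hzim]; exact h3) m
  rw [← hw] at h4
  refine h4.trans ?_
  have h5 : (Complex.Gamma z)⁻¹ = Complex.Gamma (1 - z) * Complex.sin (Real.pi * z) / Real.pi := by
    have h6 := Complex.Gamma_mul_Gamma_one_sub z
    have hΓ : Complex.Gamma z ≠ 0 := by
      apply Complex.Gamma_ne_zero
      intro k hk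
      have := congrArg Complex.im hk
      rw [hzim] at this
      simp at this
      rw [this] at h3
      simp at h3
      linarith
    have h7 : Complex.sin (Real.pi * z) ≠ 0 := by
      intro h8
      rw [h8, div_zero] at h6
      rcases mul_eq_zero.1 h6 with h9 | h9
      · exact hΓ h9
      · have : Complex.Gamma (1 - z) ≠ 0 := Complex.Gamma_ne_zero_of_re_pos (by
          simp [hzre]; linarith)
        exact this h9
    have hpi : (Real.pi : ℂ) ≠ 0 := by exact_mod_cast Real.pi_ne_zero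
    rw [eq_div_iff h7] at h6
    generalize Complex.sin (Real.pi * z) = S at h6 ⊢
    field_simp
    linear_combination -h6
  have h8 := norm_sin_le (Real.pi * z)
  have h9 : (Real.pi * z : ℂ).im = Real.pi * w.im := by simp [hzim]
  rw [h9, abs_mul, abs_of_pos Real.pi_pos] at h8
  have h10 : ‖Complex.Gamma (1 - z)‖ ≤ max C 0 := by
    have h11 : (1 - z).re = 1 - w.re + m := by simp [hzre]; ring
    refine (norm_Gamma_le (by rw [h11]; linarith)).trans ?_
    rw [h11]
    have h12 := hC (1 - w.re + m) ⟨by linarith, by linarith⟩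
    exact (le_abs_self _).trans (h12.trans (le_max_left _ _))
  rw [h5, norm_div, norm_mul, Complex.norm_real, Real.norm_of_nonneg Real.pi_pos.le]
  calc _ ≤ max C 0 * Real.exp (Real.pi * |w.im|) / Real.pi := by gcongr
    _ = _ := by ring

end Pool.Agent.H.MP_bac04d_nt
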