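import Pool.Agent.H.MP_bac04d_nt.Core

open MeasureTheory Set Filter Topology

namespace Pool.Agent.H.MP_bac04d_nt

/-- The nodes `n^(1/ν)/6`. -/
noncomputable def node (ν : ℝ) (n : ℕ) : ℝ := (n : ℝ) ^ (1 / ν) / 6

lemma node_nonneg (ν : ℝ) (n : ℕ) : 0 ≤ node ν n := by unfold node; positivity

lemma node_pos (ν : ℝ) {n : ℕ} (hn : 0 < n) : 0 < node ν n := by
  unfold node
  have : (0 : ℝ) < n := by exact_mod_cast hn
  positivity

lemma node_mono {ν : ℝ} (hν : 0 < ν) : Monotone (node ν) := by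
  intro m n hmn
  unfold node
  have : (m : ℝ) ≤ n := by exact_mod_cast hmn
  have h : (m : ℝ) ^ (1 / ν) ≤ (n : ℝ) ^ (1 / ν) :=
    Real.rpow_le_rpow (Nat.cast_nonneg m) this (by positivity)
  linarith

lemma node_rpow {ν : ℝ} (hν : 0 < ν) (n : ℕ) : node ν n ^ ν = (n : ℝ) * (6 : ℝ) ^ (-ν) := by
  unfold node
  rw [Real.div_rpow (by positivity) (by norm_num), ← Real.rpow_mul (Nat.cast_nonneg n),
    one_div_mul_cancel hν.ne', Real.rpow_one, Real.rpow_neg (by norm_num), div_eq_mul_inv]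

lemma node_gap {ν : ℝ} (hν : 1 ≤ ν) (n : ℕ) : node ν (n + 1) - node ν n ≤ 1 / 6 := by
  unfold node
  have hp : 0 < ν := by linarith
  have h := Real.rpow_add_le_add_rpow (p := 1 / ν) (Nat.cast_nonneg n) zero_le_one
    (by positivity) (by rw [div_le_one hp]; exact hν)
  rw [Real.one_rpow] at h
  push_cast
  linarith

lemma node_two_le {ν : ℝ} (hν : 1 ≤ ν) : node ν 2 ≤ 1 / 3 := by
  unfold node
  have hp : 0 < ν := by linarith
  have h : (2 : ℝ) ^ (1 / ν) ≤ 2 ^ (1 : ℝ) :=
    Real.rpow_le_rpow_of_exponent_le (by norm_num) (by rw [div_le_one hp]; exact hν)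
  rw [Real.rpow_one] at h
  push_cast
  linarith

lemma tendsto_node {ν : ℝ} (hν : 0 < ν) : Tendsto (node ν) atTop atTop := by
  unfold node
  apply Tendsto.atTop_div_const (by norm_num)
  exact (tendsto_rpow_atTop (by positivity)).comp tendsto_natCast_atTop_atTop

/-- The breakpoints: `0, u₂, u₃, …`. -/
noncomputable def brk (ν : ℝ) : ℕ → ℝ
  | 0 => 0
  | (k + 1) => node ν (k + 2)

lemma brk_gap {ν : ℝ} (hν : 1 ≤ ν) (n : ℕ) : brk ν (n + 1) - brk ν n ≤ 1 / 3 := by
  cases n with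
  | zero => simpa [brk] using node_two_le hν
  | succ k =>
    have := node_gap hν (k + 2)
    simp only [brk]
    norm_num at this ⊢
    linarith

lemma brk_mono {ν : ℝ} (hν : 0 < ν) : Monotone (brk ν) := by
  apply monotone_nat_of_le_succ
  intro n
  cases n with
  | zero => simpa [brk] using node_nonneg ν 2
  | succ k => exact node_mono hν (Nat.le_succ _)

lemma tendsto_brk {ν : ℝ} (hν : 0 < ν) : Tendsto (brk ν) atTop atTop := by
  have h : Tendsto (fun k => brk ν (k + 1)) atTop atTop := by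
    simp only [brk]
    exact (tendsto_node hν).comp (tendsto_add_atTop_nat 2)
  exact (tendsto_add_atTop_iff_nat 1).1 h

lemma summable_nat_mul_exp {p q : ℝ} (hp : 0 < p) (hq : 0 < q) :
    Summable fun n : ℕ => (n : ℝ) * Real.exp (-(q * (n : ℝ) ^ p)) := by
  have h1 : (fun x : ℝ => Real.exp (-q * x)) =o[atTop] fun x => x ^ (-3 / p) :=
    isLittleO_exp_neg_mul_rpow_atTop hq _
  have h2 : Tendsto (fun n : ℕ => (n : ℝ) ^ p) atTop atTop :=
    (tendsto_rpow_atTop hp).comp tendsto_natCast_atTop_atTop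
  have h3 := (h1.comp_tendsto h2).isBigO
  have h4 : (fun n : ℕ => (n : ℝ) * Real.exp (-(q * (n : ℝ) ^ p))) =O[atTop]
      fun n : ℕ => (n : ℝ) ^ (-2 : ℝ) := by
    have h5 := (Asymptotics.isBigO_refl (fun n : ℕ => (n : ℝ)) atTop).mul h3
    refine (h5.congr' ?_ ?_)
    · filter_upwards with n
      simp
    · filter_upwards [eventually_gt_atTop 0] with n hn
      have hn' : (0 : ℝ) < n := by exact_mod_cast hn
      simp only [Function.comp]
      rw [← Real.rpow_mul hn'.le, mul_div_cancel₀ _ hp.ne']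
      nth_rewrite 1 [← Real.rpow_one (n : ℝ)]
      rw [← Real.rpow_add hn']
      norm_num
  exact summable_of_isBigO_nat (Real.summable_nat_rpow.2 (by norm_num)) h4

lemma summable_node_rpow_mul_exp {ν r : ℝ} (hν : 0 < ν) (hr : 0 < r) :
    Summable fun n : ℕ => node ν n ^ ν * Real.exp (-(r * node ν n)) := by
  have h := (summable_nat_mul_exp (p := 1 / ν) (q := r / 6) (by positivity) (by positivity)).mul_left
    ((6 : ℝ) ^ (-ν))
  refine h.congr fun n => ?_
  rw [node_rpow hν]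
  unfold node
  have : r / 6 * (n : ℝ) ^ (1 / ν) = r * ((n : ℝ) ^ (1 / ν) / 6) := by ring
  rw [this]; ring

lemma summable_expSum_sq_node {ι : Type*} (S : Finset ι) (x s : ι → ℝ) {ν : ℝ} (hν : 0 < ν)
    (hs : ∀ i ∈ S, 0 < s i) :
    Summable fun n : ℕ => expSum S x s (node ν n) ^ 2 * node ν n ^ ν := by
  simp_rw [expSum_sq_mul]
  refine summable_sum fun i hi => summable_sum fun j hj => ?_
  exact (summable_node_rpow_mul_exp hν (add_pos (hs i hi) (hs j hj))).mul_left _

lemma sampling_expSum {ι : Type*} (S : Finset ι) (x s : ι → ℝ) {ν : ℝ} (hν : 1 ≤ ν)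
    (hs : ∀ i ∈ S, 0 < s i) :
    ∫ v in Ioi (0 : ℝ), expSum S x s v ^ 2 * v ^ ν ≤
      1 / 2 * (∑' k : ℕ, expSum S x s (node ν (k + 2)) ^ 2 * node ν (k + 2) ^ ν) +
      1 / 2 * ∫ v in Ioi (0 : ℝ), expSum S (fun i => -(s i * x i)) s v ^ 2 * v ^ ν := by
  have hν0 : 0 < ν := by linarith
  refine sampling (fun u => hasDerivAt_expSum S x s u) (continuous_expSum S _ s) hν0.le (brk ν) rfl
    (brk_mono hν0) (brk_gap hν) (tendsto_brk hν0) (integrableOn_expSum_sq S x s hν0.le hs)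
    (integrableOn_expSum_sq S _ s hν0.le hs) ?_
  exact (summable_nat_add_iff 2).2 (summable_expSum_sq_node S x s hν0 hs)

/-- Main inequality. -/
theorem main_ineq {ι : Type*} (S : Finset ι) (x s : ι → ℝ) {ν : ℝ} (hν : 1 ≤ ν)
    (hs : ∀ i ∈ S, 0 < s i) :
    expSum S x s (node ν 1) ^ 2 * node ν 1 ^ ν ≤
      2 * ((∑' k : ℕ, expSum S x s (node ν (k + 2)) ^ 2 * node ν (k + 2) ^ ν) +
        ∑' k : ℕ, expSum S (fun i => x i * s i ^ (-ν)) (fun i => (s i)⁻¹) (node ν (k + 2)) ^ 2 *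
          node ν (k + 2) ^ ν) := by
  have hν0 : 0 < ν := by linarith
  set A := ∫ v in Ioi (0 : ℝ), expSum S x s v ^ 2 * v ^ ν with hA
  set B := ∫ v in Ioi (0 : ℝ), expSum S (fun i => x i * s i ^ (-ν)) (fun i => (s i)⁻¹) v ^ 2 * v ^ ν
    with hB
  set Sφ := ∑' k : ℕ, expSum S x s (node ν (k + 2)) ^ 2 * node ν (k + 2) ^ ν with hSφ
  set Sψ := ∑' k : ℕ, expSum S (fun i => x i * s i ^ (-ν)) (fun i => (s i)⁻¹) (node ν (k + 2)) ^ 2 *
          node ν (k + 2) ^ ν with hSψ
  have h1 : A ≤ 1 / 2 * Sφ + 1 / 2 * B := by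
    have := sampling_expSum S x s hν hs
    rwa [plancherel S x s hν0.le hs] at this
  have h2 : B ≤ 1 / 2 * Sψ + 1 / 2 * A := by
    have := sampling_expSum S (fun i => x i * s i ^ (-ν)) (fun i => (s i)⁻¹) hν
      (fun i hi => inv_pos.2 (hs i hi))
    rwa [plancherel' S x s hν0.le hs] at this
  have hsum := (summable_nat_add_iff 2).2 (summable_expSum_sq_node S x s hν0 hs)
  have h3 : expSum S x s (node ν 2) ^ 2 * node ν 2 ^ ν ≤ Sφ := by
    have := hsum.le_tsum 0 (fun k _ => by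
      have := Real.rpow_nonneg (node_nonneg ν (k + 2)) ν
      positivity)
    simpa using this
  have h4 := gap_pointwise (fun u => hasDerivAt_expSum S x s u) (continuous_expSum S _ s) hν0.le
    (node_nonneg ν 1) (node_mono hν0 (by norm_num : 1 ≤ 2))
  have hint1 := integrableOn_expSum_sq S x s hν0.le hs
  have hint2 := integrableOn_expSum_sq S (fun i => -(s i * x i)) s hν0.le hs
  have h5 : ∫ v in node ν 1..node ν 2, (expSum S x s v ^ 2 +
      expSum S (fun i => -(s i * x i)) s v ^ 2) * v ^ ν ≤ A + B := by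
    rw [hA, hB, ← plancherel S x s hν0.le hs, ← integral_add hint1 hint2,
      intervalIntegral.integral_of_le (node_mono hν0 (by norm_num : 1 ≤ 2))]
    have e : ∀ v : ℝ, (expSum S x s v ^ 2 + expSum S (fun i => -(s i * x i)) s v ^ 2) * v ^ ν =
      expSum S x s v ^ 2 * v ^ ν + expSum S (fun i => -(s i * x i)) s v ^ 2 * v ^ ν := by
      intro v; ring
    simp_rw [e]
    apply setIntegral_mono_set (hint1.add hint2)
    · refine (ae_restrict_iff' measurableSet_Ioi).2 (ae_of_all _ fun v hv => ?_)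
      have : 0 ≤ v ^ ν := Real.rpow_nonneg (le_of_lt hv) ν
      simp only [Pi.zero_apply, Pi.add_apply]
      positivity
    · apply LE.le.eventuallyLE
      intro v hv
      exact lt_of_le_of_lt (node_nonneg ν 1) hv.1
  have h6 : 0 ≤ Sψ := tsum_nonneg fun k => by
    have := Real.rpow_nonneg (node_nonneg ν (k + 2)) ν
    positivity
  linarith

end Pool.Agent.H.MP_bac04d_nt
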