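import Mathlib

open Filter Topology

namespace Pool.Agent.H.MP_bac04d_nt

/-! ### Orders of vanishing of `1/Γ` and uniqueness of the degree -/

/-- The entire function `1/Γ`. -/
noncomputable def invGamma (z : ℂ) : ℂ := (Complex.Gamma z)⁻¹

lemma differentiable_invGamma : Differentiable ℂ invGamma := Complex.differentiable_one_div_Gamma

lemma analyticAt_invGamma (z : ℂ) : AnalyticAt ℂ invGamma z := differentiable_invGamma.analyticAt z

lemma invGamma_succ (z : ℂ) : invGamma z = z * invGamma (z + 1) :=
  Complex.one_div_Gamma_eq_self_mul_one_div_Gamma_add_one z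

lemma invGamma_eq_zero_iff (z : ℂ) : invGamma z = 0 ↔ ∃ k : ℕ, z = -k := by
  unfold invGamma
  rw [inv_eq_zero, Complex.Gamma_eq_zero_iff]

lemma order_shift (z : ℂ) :
    analyticOrderAt (fun w => invGamma (w + 1)) z = analyticOrderAt invGamma (z + 1) := by
  have hd : deriv (fun w : ℂ => w + 1) z ≠ 0 := by simp
  have := analyticOrderAt_comp_of_deriv_ne_zero (f := invGamma) (g := fun w : ℂ => w + 1) (z₀ := z)
    (by fun_prop) hd
  exact this

lemma order_step (z : ℂ) : analyticOrderAt invGamma z =
    analyticOrderAt (fun w : ℂ => w) z + analyticOrderAt invGamma (z + 1) := by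
  have h1 : invGamma = (fun z => z) * fun z => invGamma (z + 1) := by
    ext z; exact invGamma_succ z
  have h2 : AnalyticAt ℂ (fun w => invGamma (w + 1)) z := by
    have : Differentiable ℂ (fun w => invGamma (w + 1)) :=
      differentiable_invGamma.comp (by fun_prop : Differentiable ℂ fun w : ℂ => w + 1)
    exact this.analyticAt z
  have h3 : AnalyticAt ℂ (fun w : ℂ => w) z := analyticAt_id
  nth_rewrite 1 [h1]
  rw [analyticOrderAt_mul h3 h2, order_shift]

lemma order_invGamma_neg (k : ℕ) : analyticOrderAt invGamma (-(k : ℂ)) = 1 := by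
  induction k with
  | zero =>
    rw [order_step]
    have h2 : analyticOrderAt invGamma (-((0 : ℕ) : ℂ) + 1) = 0 := by
      rw [(analyticAt_invGamma _).analyticOrderAt_eq_zero]
      simp [invGamma]
    rw [h2, add_zero]
    simp only [Nat.cast_zero, neg_zero]
    exact analyticOrderAt_id
  | succ k ih =>
    rw [order_step, show -(((k + 1 : ℕ) : ℂ)) + 1 = -(k : ℂ) by push_cast; ring, ih]
    have h3 : AnalyticAt ℂ (fun w : ℂ => w) (-(((k + 1 : ℕ) : ℂ))) := analyticAt_id
    have h2 : analyticOrderAt (fun w : ℂ => w) (-(((k + 1 : ℕ) : ℂ))) = 0 := by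
      rw [AnalyticAt.analyticOrderAt_eq_zero h3]
      simp only [ne_eq, neg_eq_zero]
      exact_mod_cast Nat.succ_ne_zero k
    rw [h2, zero_add]

open Classical in
/-- The order of `1/Γ(λ s + μ)`. -/
lemma order_invGamma_affine {lam : ℝ} (hlam : 0 < lam) (mu s : ℂ) :
    analyticOrderAt (fun s : ℂ => invGamma (lam * s + mu)) s =
      if ∃ k : ℕ, lam * s + mu = -k then 1 else 0 := by
  have hd : deriv (fun w : ℂ => lam * w + mu) s ≠ 0 := by
    simp [hlam.ne']
  have h1 := analyticOrderAt_comp_of_deriv_ne_zero (f := invGamma) (g := fun w : ℂ => lam * w + mu)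
    (z₀ := s) (by fun_prop) hd
  have h2 : analyticOrderAt (fun s : ℂ => invGamma (lam * s + mu)) s =
      analyticOrderAt invGamma (lam * s + mu) := h1
  rw [h2]
  split_ifs with h
  · obtain ⟨k, hk⟩ := h
    rw [hk]; exact order_invGamma_neg k
  · rw [(analyticAt_invGamma _).analyticOrderAt_eq_zero, Ne, invGamma_eq_zero_iff]
    exact h

/-- Finite product of functions `1/Γ(λ_i s + μ_i)`. -/
noncomputable def E {ι : Type*} [Fintype ι] (lam : ι → ℝ) (mu : ι → ℂ) (s : ℂ) : ℂ :=
  ∏ i, invGamma (lam i * s + mu i)

lemma differentiable_E {ι : Type*} [Fintype ι] (lam : ι → ℝ) (mu : ι → ℂ) :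
    Differentiable ℂ (E lam mu) := by
  unfold E
  have : ∀ i : ι, Differentiable ℂ fun s : ℂ => invGamma (lam i * s + mu i) := fun i =>
    differentiable_invGamma.comp (by fun_prop : Differentiable ℂ fun s : ℂ => lam i * s + mu i)
  fun_prop

open Classical in
/-- The number of factors vanishing at `s`. -/
noncomputable def zcount {ι : Type*} [Fintype ι] (lam : ι → ℝ) (mu : ι → ℂ) (s : ℂ) : ℕ :=
  (Finset.univ.filter fun i => ∃ k : ℕ, lam i * s + mu i = -k).card

lemma order_E {ι : Type*} [Fintype ι] {lam : ι → ℝ} (hlam : ∀ i, 0 < lam i) (mu : ι → ℂ) (s : ℂ) :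
    analyticOrderAt (E lam mu) s = zcount lam mu s := by
  classical
  have key : ∀ S : Finset ι, analyticOrderAt (fun s => ∏ i ∈ S, invGamma (lam i * s + mu i)) s =
      ((S.filter fun i => ∃ k : ℕ, lam i * s + mu i = -k).card : ℕ∞) := by
    intro S
    induction S using Finset.induction_on with
    | empty =>
      simp only [Finset.prod_empty, Finset.filter_empty, Finset.card_empty, Nat.cast_zero]
      rw [AnalyticAt.analyticOrderAt_eq_zero analyticAt_const]
      exact one_ne_zero
    | insert a S ha ih =>
      have h1 : (fun s => ∏ i ∈ insert a S, invGamma (lam i * s + mu i)) =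
          (fun s => invGamma (lam a * s + mu a)) * fun s => ∏ i ∈ S, invGamma (lam i * s + mu i) := by
        ext s
        simp [Finset.prod_insert ha]
      have h2 : Differentiable ℂ fun s : ℂ => invGamma (lam a * s + mu a) :=
        differentiable_invGamma.comp (by fun_prop : Differentiable ℂ fun s : ℂ => lam a * s + mu a)
      have h3 : ∀ i : ι, Differentiable ℂ fun s : ℂ => invGamma (lam i * s + mu i) := fun i =>
        differentiable_invGamma.comp (by fun_prop : Differentiable ℂ fun s : ℂ => lam i * s + mu i)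
      have h4 : Differentiable ℂ fun s => ∏ i ∈ S, invGamma (lam i * s + mu i) := by fun_prop
      rw [h1, analyticOrderAt_mul (h2.analyticAt s) (h4.analyticAt s), ih,
        order_invGamma_affine (hlam a), Finset.filter_insert]
      split_ifs with h
      · rw [Finset.card_insert_of_notMem (by simp [ha])]
        push_cast; ring
      · simp
  exact key Finset.univ

end Pool.Agent.H.MP_bac04d_nt
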