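import Pool.Agent.H.MP_bac04d_nt.Theta
import Pool.Agent.H.MP_bac04d_nt.GammaBound

open MeasureTheory Set Filter Topology

namespace Pool.Agent.H.MP_bac04d_nt

/-- The theta function data. -/
structure ThetaData (ν : ℝ) where
  /-- coefficients -/
  e : ℕ → ℝ
  e0 : e 0 = 0
  e1 : e 1 = 1
  summ : ∀ σ : ℝ, 1 < σ → Summable fun n : ℕ => |e n| * (n : ℝ) ^ (-σ)
  /-- the theta function -/
  th : ℝ → ℝ
  hs : ∀ t : ℝ, 0 < t → HasSum (fun n => e n * Real.exp (-(t * node ν n))) (th t)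
  feq : ∀ t : ℝ, 0 < t → th t⁻¹ = t ^ ν * th t

theorem nonempty_thetaData {ν : ℝ} (hν : 1 ≤ ν) : Nonempty (ThetaData ν) := by
  obtain ⟨e, e0, e1, hsum, H⟩ := exists_theta hν
  refine ⟨⟨e, e0, e1, hsum, fun t => ∑' n, e n * Real.exp (-(t * node ν n)), ?_, ?_⟩⟩
  · intro t ht
    obtain ⟨A, hA, -⟩ := H t ht
    exact hA.summable.hasSum
  · intro t ht
    obtain ⟨A, hA, hA'⟩ := H t ht
    rw [hA.tsum_eq, hA'.tsum_eq]

namespace ThetaData

variable {ν : ℝ} (D : ThetaData ν)

lemma summable_abs {t : ℝ} (ht : 0 < t) :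
    Summable fun n => |D.e n| * Real.exp (-(t * node ν n)) := by
  have := (D.hs t ht).summable.abs
  refine this.congr fun n => ?_
  rw [abs_mul, abs_of_pos (Real.exp_pos _)]

lemma continuousOn_th : ContinuousOn D.th (Ioi 0) := by
  intro t ht
  have ht' : (0 : ℝ) < t := ht
  have h2 : (0 : ℝ) < t / 2 := by positivity
  have h1 : ContinuousOn (fun t => ∑' n, D.e n * Real.exp (-(t * node ν n))) (Ici (t / 2)) := by
    apply continuousOn_tsum (u := fun n => |D.e n| * Real.exp (-(t / 2 * node ν n)))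
    · intro n; fun_prop
    · exact D.summable_abs h2
    · intro n x hx
      rw [Real.norm_eq_abs, abs_mul, abs_of_pos (Real.exp_pos _)]
      have : t / 2 * node ν n ≤ x * node ν n :=
        mul_le_mul_of_nonneg_right hx (node_nonneg ν n)
      gcongr
  have h3 : ContinuousOn D.th (Ici (t / 2)) := by
    refine h1.congr fun x hx => ?_
    exact ((D.hs x (lt_of_lt_of_le h2 hx)).tsum_eq).symm
  have h4 : Ici (t / 2) ∈ 𝓝 t := Ici_mem_nhds (by linarith)
  exact (h3.continuousAt h4).continuousWithinAt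

lemma th_bound (hν : 0 < ν) : ∃ C : ℝ, ∀ t : ℝ, 1 ≤ t → |D.th t| ≤ C * Real.exp (-(node ν 1) * t) := by
  refine ⟨Real.exp (node ν 1) * ∑' n, |D.e n| * Real.exp (-(1 * node ν n)), fun t ht => ?_⟩
  have ht0 : 0 < t := by linarith
  have h1 : |D.th t| ≤ ∑' n, |D.e n| * Real.exp (-(t * node ν n)) := by
    rw [← (D.hs t ht0).tsum_eq, ← Real.norm_eq_abs]
    refine (norm_tsum_le_tsum_norm ?_).trans (le_of_eq ?_)
    · refine (D.summable_abs ht0).congr fun n => ?_
      rw [Real.norm_eq_abs, abs_mul, abs_of_pos (Real.exp_pos _)]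
    · congr 1; ext n
      rw [Real.norm_eq_abs, abs_mul, abs_of_pos (Real.exp_pos _)]
  refine h1.trans ?_
  rw [mul_right_comm, ← tsum_mul_left]
  apply Summable.tsum_le_tsum _ (D.summable_abs ht0)
    ((D.summable_abs one_pos).mul_left _)
  intro n
  rcases Nat.eq_zero_or_pos n with rfl | hn
  · simp [D.e0]
  · have h2 : node ν 1 ≤ node ν n := node_mono hν hn
    have h3 : Real.exp (-(t * node ν n)) ≤
        Real.exp (node ν 1) * Real.exp (-(node ν 1) * t) * Real.exp (-(1 * node ν n)) := by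
      rw [← Real.exp_add, ← Real.exp_add]
      apply Real.exp_le_exp.2
      nlinarith
    calc _ ≤ |D.e n| * (Real.exp (node ν 1) * Real.exp (-(node ν 1) * t) *
          Real.exp (-(1 * node ν n))) := by gcongr
      _ = _ := by ring

lemma isBigO_th (hν : 0 < ν) (r : ℝ) :
    (fun t => ((D.th t : ℝ) : ℂ)) =O[atTop] fun t : ℝ => t ^ r := by
  obtain ⟨C, hC⟩ := D.th_bound hν
  have h1 : (fun t => ((D.th t : ℝ) : ℂ)) =O[atTop] fun t : ℝ => Real.exp (-(node ν 1) * t) := by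
    apply Asymptotics.IsBigO.of_bound C
    filter_upwards [eventually_ge_atTop 1] with t ht
    rw [Complex.norm_real, Real.norm_eq_abs, Real.norm_of_nonneg (Real.exp_pos _).le]
    exact hC t ht
  exact h1.trans (isLittleO_exp_neg_mul_rpow_atTop (node_pos ν one_pos) r).isBigO

/-- The functional equation pair. -/
noncomputable def pair (hν : 0 < ν) : WeakFEPair ℂ where
  f := fun t => ((D.th t : ℝ) : ℂ)
  g := fun t => ((D.th t : ℝ) : ℂ)
  k := ν
  ε := 1
  f₀ := 0
  g₀ := 0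
  hf_int := (Complex.continuous_ofReal.comp_continuousOn D.continuousOn_th).locallyIntegrableOn
    measurableSet_Ioi
  hg_int := (Complex.continuous_ofReal.comp_continuousOn D.continuousOn_th).locallyIntegrableOn
    measurableSet_Ioi
  hk := hν
  hε := one_ne_zero
  h_feq := by
    intro x hx
    rw [one_div, D.feq x hx]
    simp
  hf_top := by
    intro r
    simpa using D.isBigO_th hν r
  hg_top := by
    intro r
    simpa using D.isBigO_th hν r

lemma pair_strong (hν : 0 < ν) : IsStrongFEPair (D.pair hν) where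
  hf₀ := rfl
  hg₀ := rfl

/-- The completed function. -/
noncomputable def Lam (hν : 0 < ν) (w : ℂ) : ℂ := (D.pair hν).Λ w

lemma Lam_eq (hν : 0 < ν) (w : ℂ) : D.Lam hν w = mellin (fun t => ((D.th t : ℝ) : ℂ)) w := by
  unfold Lam
  rw [(D.pair_strong hν).Λ_eq]; rfl

lemma differentiable_Lam (hν : 0 < ν) : Differentiable ℂ (D.Lam hν) :=
  (D.pair_strong hν).differentiable_Λ

lemma Lam_feq (hν : 0 < ν) (w : ℂ) : D.Lam hν (ν - w) = D.Lam hν w := by
  have h1 := (D.pair hν).functional_equation w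
  have h2 : (D.pair hν).symm.Λ w = D.Lam hν w := by
    rw [(D.pair_strong hν).symm_Λ_eq, D.Lam_eq]; rfl
  rw [h2] at h1
  have h3 : (D.pair hν).ε = 1 := rfl
  rw [h3, one_smul] at h1
  exact h1

lemma Lam_conj (hν : 0 < ν) (w : ℂ) :
    D.Lam hν ((starRingEnd ℂ) w) = (starRingEnd ℂ) (D.Lam hν w) := by
  rw [D.Lam_eq, D.Lam_eq, mellin, mellin, ← integral_conj]
  refine setIntegral_congr_fun measurableSet_Ioi fun t ht => ?_
  have ht' : (0 : ℝ) < t := ht
  simp only [smul_eq_mul, map_mul, Complex.conj_ofReal]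
  congr 1
  have h1 : ((t : ℝ) : ℂ).arg ≠ Real.pi := by
    rw [Complex.arg_ofReal_of_nonneg ht'.le]; exact Real.pi_pos.ne
  rw [show (starRingEnd ℂ) w - 1 = (starRingEnd ℂ) (w - 1) by simp, Complex.cpow_conj _ _ h1,
    Complex.conj_ofReal]

lemma mellinConvergent_th (hν : 0 < ν) (w : ℂ) :
    MellinConvergent (fun t => ((D.th t : ℝ) : ℂ)) w :=
  ((D.pair_strong hν).hasMellin w).1

lemma Lam_strip_bound (hν : 0 < ν) (x1 x2 : ℝ) :
    ∃ C : ℝ, 0 ≤ C ∧ ∀ w : ℂ, x1 ≤ w.re → w.re ≤ x2 → ‖D.Lam hν w‖ ≤ C := by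
  have i1 := (D.mellinConvergent_th hν x1).norm
  have i2 := (D.mellinConvergent_th hν x2).norm
  refine ⟨∫ t in Ioi (0 : ℝ), (‖((t : ℝ) : ℂ) ^ ((x1 : ℂ) - 1) • ((D.th t : ℝ) : ℂ)‖ +
    ‖((t : ℝ) : ℂ) ^ ((x2 : ℂ) - 1) • ((D.th t : ℝ) : ℂ)‖), ?_, fun w h1 h2 => ?_⟩
  · exact integral_nonneg fun t => by positivity
  rw [D.Lam_eq, mellin]
  refine (norm_integral_le_integral_norm _).trans ?_
  apply setIntegral_mono_on (D.mellinConvergent_th hν w).norm (i1.add i2) measurableSet_Ioi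
  intro t ht
  have ht' : (0 : ℝ) < t := ht
  simp only [Pi.add_apply, norm_smul, Complex.norm_cpow_eq_rpow_re_of_pos ht']
  rw [← add_mul]
  apply mul_le_mul_of_nonneg_right _ (norm_nonneg _)
  simp only [Complex.sub_re, Complex.ofReal_re, Complex.one_re]
  rcases le_total 1 t with h | h
  · have := Real.rpow_le_rpow_of_exponent_le h (by linarith : w.re - 1 ≤ x2 - 1)
    have h0 : 0 ≤ t ^ (x1 - 1) := by positivity
    linarith
  · have := Real.rpow_le_rpow_of_exponent_ge ht' h (by linarith : x1 - 1 ≤ w.re - 1)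
    have h0 : 0 ≤ t ^ (x2 - 1) := by positivity
    linarith

end ThetaData

end Pool.Agent.H.MP_bac04d_nt
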