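import Pool.Agent.H.MP_bac04d_nt.Duality

open MeasureTheory Set Filter Topology

namespace Pool.Agent.H.MP_bac04d_nt

lemma wt_le {ν : ℝ} (hν : 0 < ν) (k : ℕ) : wt ν k ≤ ((k + 2 : ℕ) : ℝ) ^ (1 / 2 : ℝ) := by
  unfold wt
  rw [node_rpow hν, Real.sqrt_eq_rpow]
  apply Real.rpow_le_rpow (by positivity) _ (by norm_num)
  have h : (6 : ℝ) ^ (-ν) ≤ 1 := Real.rpow_le_one_of_one_le_of_nonpos (by norm_num) (by linarith)
  have h2 : (0 : ℝ) ≤ ((k + 2 : ℕ) : ℝ) := Nat.cast_nonneg _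
  nlinarith

lemma wt_nonneg (ν : ℝ) (k : ℕ) : 0 ≤ wt ν k := Real.sqrt_nonneg _

/-- Coefficients of the Dirichlet series. -/
noncomputable def coef (ν : ℝ) (v w : ℕ → ℝ) : ℕ → ℝ
  | 0 => 0
  | 1 => 1
  | (k + 2) => (w k - v k) * wt ν k

lemma sub_eq_zero_add_sum (ν : ℝ) (v w : ℕ → ℝ) (f : ℕ → ℝ) {X : ℝ} :
    X + ∑ i ∈ Finset.range 2, coef ν v w i * f i = X + f 1 := by
  simp [Finset.sum_range_succ, coef]

/-- Existence of the coefficient sequence. -/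
theorem exists_theta {ν : ℝ} (hν : 1 ≤ ν) :
    ∃ e : ℕ → ℝ, e 0 = 0 ∧ e 1 = 1 ∧
      (∀ σ : ℝ, 1 < σ → Summable fun n : ℕ => |e n| * (n : ℝ) ^ (-σ)) ∧
      ∀ t : ℝ, 0 < t → ∃ A : ℝ,
        HasSum (fun n => e n * Real.exp (-(t * node ν n))) A ∧
        HasSum (fun n => e n * Real.exp (-(t⁻¹ * node ν n))) (t ^ ν * A) := by
  have hν0 : 0 < ν := by linarith
  obtain ⟨v, w, hv, hw, H⟩ := exists_coeffs hν
  refine ⟨coef ν v w, rfl, rfl, ?_, ?_⟩
  · intro σ hσ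
    have h1 : Summable fun n : ℕ => (n : ℝ) ^ (1 - 2 * σ) :=
      Real.summable_nat_rpow.2 (by linarith)
    have h2 : Summable fun k : ℕ => v k ^ 2 + w k ^ 2 + ((k + 2 : ℕ) : ℝ) ^ (1 - 2 * σ) :=
      (hv.add hw).add ((summable_nat_add_iff 2).2 h1)
    refine (summable_nat_add_iff 2).1 (Summable.of_nonneg_of_le (fun k => by positivity) ?_ h2)
    intro k
    have hk : (0 : ℝ) < ((k + 2 : ℕ) : ℝ) := by positivity
    set x : ℝ := ((k + 2 : ℕ) : ℝ) ^ (1 / 2 - σ) with hx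
    have hx2 : x ^ 2 = ((k + 2 : ℕ) : ℝ) ^ (1 - 2 * σ) := by
      rw [hx, ← Real.rpow_natCast, ← Real.rpow_mul hk.le]
      congr 1; push_cast; ring
    have hx0 : 0 ≤ x := by positivity
    have h3 : |coef ν v w (k + 2)| ≤ (|v k| + |w k|) * ((k + 2 : ℕ) : ℝ) ^ (1 / 2 : ℝ) := by
      simp only [coef]
      rw [abs_mul, abs_of_nonneg (wt_nonneg ν k)]
      have h4 : |w k - v k| ≤ |v k| + |w k| := by
        rw [add_comm]; exact abs_sub _ _
      exact mul_le_mul h4 (wt_le hν0 k) (wt_nonneg ν k) (by positivity)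
    have h5 : |coef ν v w (k + 2)| * ((k + 2 : ℕ) : ℝ) ^ (-σ) ≤ (|v k| + |w k|) * x := by
      refine (mul_le_mul_of_nonneg_right h3 (by positivity)).trans (le_of_eq ?_)
      rw [mul_assoc, ← Real.rpow_add hk, hx]
      congr 2
    refine h5.trans ?_
    rw [← hx2]
    nlinarith [sq_abs (v k), sq_abs (w k), sq_nonneg (|v k| - x), sq_nonneg (|w k| - x)]
  · intro t ht
    -- the three series
    obtain ⟨A, B, hA, hB, hAB⟩ := H t ht
    obtain ⟨A', B', hA', hB', hAB'⟩ := H t⁻¹ (inv_pos.2 ht)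
    rw [inv_inv] at hB'
    have ht1 : (t⁻¹ : ℝ) ^ (-ν) = t ^ ν := by
      rw [Real.inv_rpow ht.le, Real.rpow_neg ht.le, inv_inv]
    have htν : t ^ ν ≠ 0 := (Real.rpow_pos_of_pos ht ν).ne'
    rw [ht1] at hB'
    -- β(t)
    have hβ : HasSum (fun k => w k * (Real.exp (-(t * node ν (k + 2))) * wt ν k))
        ((t ^ ν)⁻¹ * B') := by
      refine (hB'.mul_left ((t ^ ν)⁻¹)).congr_fun ?_
      intro k; field_simp
    have hβ' : HasSum (fun k => w k * (Real.exp (-(t⁻¹ * node ν (k + 2))) * wt ν k))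
        (t ^ ν * B) := by
      refine (hB.mul_left (t ^ ν)).congr_fun ?_
      intro k
      rw [Real.rpow_neg ht.le]; field_simp
    refine ⟨(t ^ ν)⁻¹ * B' - A + Real.exp (-(t * node ν 1)), ?_, ?_⟩
    · rw [← sub_eq_zero_add_sum ν v w (fun n => Real.exp (-(t * node ν n)))]
      refine (hasSum_nat_add_iff 2).1 ((hβ.sub hA).congr_fun fun k => ?_)
      simp only [coef]; ring
    · have e1 : t ^ ν * ((t ^ ν)⁻¹ * B' - A + Real.exp (-(t * node ν 1))) =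
          t ^ ν * B - A' + Real.exp (-(t⁻¹ * node ν 1)) := by
        rw [hAB, hAB']; field_simp; ring
      rw [e1, ← sub_eq_zero_add_sum ν v w (fun n => Real.exp (-(t⁻¹ * node ν n)))]
      refine (hasSum_nat_add_iff 2).1 ((hβ'.sub hA').congr_fun fun k => ?_)
      simp only [coef]; ring

end Pool.Agent.H.MP_bac04d_nt
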